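import Mathlib
import Pool.Agent.PudOr.A1
import Pool.Agent.PudOr.A2
import Pool.Agent.PudOr.A3
import Pool.Agent.PudOr.A5a
import Pool.Agent.PudTal.Defs

set_option autoImplicit false

/-!
# Hidden sets with levels of certificates

At the scale `j` the hidden set contains words of types `t = 0, 1, 2, ...`: a word of type `t` is
`1 ^ t 0 y`, of length `sc j`. Types `0` and `1` are the two values, the types `2 + 2 k` are the
violations of level `k`, the types `3 + 2 k` the certificates of level `k`.
-/

namespace Pool.Agent.PudOpt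

open N68a2faeb N793a5b8e N487b59b3 Pool.Agent.Helper22 Pool.Agent.PudOr Pool.Agent.PudTal
open scoped Classical

/-- a word of type `t` -/
def wd (t : ℕ) (y : List Bool) : List Bool := List.replicate t true ++ false :: y

/-- `C` has a word of type `t` at the scale `j` -/
def HasT (C : Oracle) (j t : ℕ) : Prop :=
  ∃ y : List Bool, y.length + t + 1 = sc j ∧ C (wd t y) = true

/-- the rules for the contents of the scale `j`: not both values; a value or a violation of level
`0`; a certificate of level `k` excludes the violations of levels `≤ k`; if there is no certificate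
of level `k` then there is a violation of level `≤ k + 1` -/
structure AbsOK (C : Oracle) (j : ℕ) : Prop where
  disj : ¬ (HasT C j 0 ∧ HasT C j 1)
  some : HasT C j 0 ∨ HasT C j 1 ∨ HasT C j 2
  low : ∀ k < j, HasT C j (3 + 2 * k) → ∀ i ≤ k, ¬ HasT C j (2 + 2 * i)
  cert : ∀ k < j, HasT C j (3 + 2 * k) ∨ ∃ i ≤ k + 1, HasT C j (2 + 2 * i)

/-- no violations of levels below `m` at the scale `j` -/
def Prot (m : ℕ) (C : Oracle) (j : ℕ) : Prop := ∀ k < m, ¬ HasT C j (2 + 2 * k)

/-- compatibility of `C` with the condition `p` -/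
def Comp (p : Cond) (C : Oracle) : Prop :=
  (∀ q : List Bool, q.length < sc p.J → (C q = true ↔ q ∈ p.pos)) ∧
  ∀ j, p.J ≤ j → AbsOK C j ∧ (fam j < p.m → Prot p.m C j)

/-- generic sets -/
structure Gen {ι : Type} (P : ι → List Bool → Oracle → Prop) (C : Oracle) where
  p : ℕ → Cond
  comp : ∀ k, Comp (p k) C
  anti : ∀ k C', Comp (p (k + 1)) C' → Comp (p k) C'
  J_mono : ∀ k, (p k).J ≤ (p (k + 1)).J
  m_le : ∀ k, k ≤ (p k).m
  mJ : ∀ k, (p k).m ≤ (p k).J
  force : ∀ i, (∀ x, P i x C) → ∃ k, ∀ C', Comp (p k) C' → ∀ x, P i x C'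

/-- `q` is one of the violations excluded by the condition `c` -/
def IsZ (c : Cond) (q : List Bool) : Prop :=
  ∃ j, c.J ≤ j ∧ fam j < c.m ∧ ∃ k < c.m, ∃ y, q = wd (2 + 2 * k) y ∧ q.length = sc j

/-- the default contents: the value `0` and all certificates -/
noncomputable def dflt : Oracle := fun q =>
  decide (∃ t u, (t = 0 ∨ ∃ k, t = 3 + 2 * k) ∧ q = wd t (List.replicate u false))

/-! ## The languages -/

/-- the language of family `i`, from scale `J₀` on -/
noncomputable def tl (i J₀ : ℕ) (C : Oracle) : DecisionProblem := fun x =>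
  decide (∃ j, J₀ ≤ j ∧ fam j = i ∧ x.length = sc j ∧ HasT C j 1)

/-- verifier of the language `tl i J₀` (`b = true`) and of its complement (`b = false`) -/
noncomputable def thT (i J₀ : ℕ) (b : Bool) (_ : Act) (v : List Bool) :
    Strat × (Oracle → Bool) :=
  (fun _ => if (cs v).length + 2 ≤ v.length then .inr (wd (if b then 1 else 0) (cs v))
      else .inl false,
   fun C => if (∃ j, J₀ ≤ j ∧ fam j = i ∧ (cf v).length = sc j) then
      decide ((cs v).length + (if b then 1 else 0) + 1 = (cf v).length) &&
        C (wd (if b then 1 else 0) (cs v)) else !b)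

/-! ## The universal search problem -/

/-- the instance `z = ((un c, x), t)` is confirmed -/
def ConfTF (act : Act) (z : List Bool) : Prop :=
  let e := enumTF (cf (cf z)).length
  let x := cs (cf z)
  (∀ w : List Bool, w.length ≤ e.1.2.eval x.length → w.length ≤ z.length ∧
    QB e.1.1 (x, w) z.length) ∧ sc e.2.J ≤ z.length ∧
  ∀ C', Comp e.2 C' → Acc (trunc act z.length) e.1 x C'

/-- the verifier of the universal search problem, on `v = (z, y)` -/
noncomputable def thTF (act : Act) (v : List Bool) : Strat × (Oracle → Bool) :=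
  let z := cf v
  let e := enumTF (cf (cf z)).length
  let x := cs (cf z)
  match cs v with
  | [] => (fun _ => .inl false, fun _ => decide (¬ ConfTF act z))
  | true :: q => (fun _ => .inr q, fun C => decide (¬ ConfTF act z ∨
      (q.length < sc e.2.J ∧ ¬ (C q = true ↔ q ∈ e.2.pos)) ∨ (C q = true ∧ IsZ e.2 q)))
  | false :: w => (simStrat act e.1.1 (x, w), fun C => decide (¬ ConfTF act z ∨
      (w.length ≤ e.1.2.eval x.length ∧ e.1.1.run (Xo act C) (x, w) = true)))

/-! ## The universal UP language -/

/-- the bound for short words -/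
def sB2 (z : List Bool) : ℕ := 64 * (z.length + 1) * (z.length + 1)

/-- `w` is the only accepted witness -/
def Uniq (act : Act) (e : Ver) (x : List Bool) (C : Oracle) : Prop :=
  ∀ w w' : List Bool, w.length ≤ e.2.eval x.length → w'.length ≤ e.2.eval x.length →
    e.1.run (Xo act C) (x, w) = true → e.1.run (Xo act C) (x, w') = true → w = w'

/-- the instance `z = ((un c, x), t)` is confirmed -/
def ConfUP (act : Act) (z : List Bool) : Prop :=
  let e := enumTF (cf (cf z)).length
  let x := cs (cf z)
  (∀ w : List Bool, w.length ≤ e.1.2.eval x.length → w.length ≤ z.length ∧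
    QB e.1.1 (x, w) z.length) ∧ 2 ^ sc e.2.J ≤ z.length ∧
  ∀ C', Comp e.2 C' → Uniq (trunc act z.length) e.1 x C'

/-- what the verifier of the universal UP language checks for the instance `z` and the
witness `w` -/
def PredUP (act : Act) (z w : List Bool) (C : Oracle) : Prop :=
  let e := enumTF (cf (cf z)).length
  let x := cs (cf z)
  ConfUP act z ∧ w.length ≤ e.1.2.eval x.length ∧
  (∀ q : List Bool, 2 ^ q.length ≤ sB2 z → (q.length < sc e.2.J → (C q = true ↔ q ∈ e.2.pos)) ∧
    (IsZ e.2 q → C q = false)) ∧
  e.1.1.run (Xo act C) (x, w) = true ∧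
  ∀ q ∈ used act e.1.1 C (x, w), IsZ e.2 q → C q = false

/-- the verifier of the universal UP language, on `v = ((z, w), pad)` -/
noncomputable def thUP (act : Act) (v : List Bool) : Strat × (Oracle → Bool) :=
  let z := cf (cf v)
  let w := cs (cf v)
  let e := enumTF (cf (cf z)).length
  let x := cs (cf z)
  (fun ans => if h : ans.length < (shortList (sB2 z)).length then
      .inr ((shortList (sB2 z))[ans.length])
    else act (e.1.1.query ((x, w), ans.take (ans.length - (shortList (sB2 z)).length))),
   fun C => decide (PredUP act z w C))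

/-- UP relative to the oracle `X` -/
def UPo (X : Oracle) : DecisionComplexityClass :=
  {L | ∃ (p : Polynomial ℕ) (M : OracleProc (List Bool × List Bool) Bool),
    (∀ x, L x = true ↔ Accepts M p X x) ∧
    ∀ x w w' : List Bool, w.length ≤ p.eval x.length → w'.length ≤ p.eval x.length →
      M.run X (x, w) = true → M.run X (x, w') = true → w = w'}

/-! ## The optimal proof system -/

theorem exists_enumFC : ∃ f : ℕ → FN × Cond, Function.Surjective f := exists_surjective_nat _

/-- enumeration of the functions and conditions -/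
noncomputable def enumFC : ℕ → FN × Cond := exists_enumFC.choose
theorem enumFC_surj : Function.Surjective enumFC := exists_enumFC.choose_spec

/-- what the optimal proof system checks on `v = (y, (((un e, w), κ), t))` -/
def ChkO (act : Act) (v : List Bool) (C : Oracle) : Prop :=
  let y := cf v
  let e := enumFC (cf (cf (cf (cs v)))).length
  let w := cs (cf (cf (cs v)))
  let κ := cs (cf (cs v))
  let N := (cs (cs v)).length
  QB e.1 w N ∧ y.length ≤ N ∧ 2 ^ sc e.2.J ≤ N ∧ e.2.m ≤ e.2.J ∧
  (∀ C', Comp e.2 C' → e.1.run (Xo act C') w = y → ¬ ∃ u, KcP act y u C') ∧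
  (∀ q : List Bool, 2 ^ q.length ≤ N → (q.length < sc e.2.J → (C q = true ↔ q ∈ e.2.pos)) ∧
    (IsZ e.2 q → C q = false)) ∧
  (∀ j, e.2.J ≤ j → fam j < e.2.m → N < 2 ^ sc j → sc j ≤ N →
    ∃ y', κ = wd (2 * e.2.m + 1) y' ∧ κ.length = sc j ∧ C κ = true) ∧
  e.1.run (Xo act C) w = y

/-- the functional of the optimal proof system, on `u = (v, padding)` -/
noncomputable def thO (act : Act) (u : List Bool) : Strat × (Oracle → Bool) :=
  let v := cf u
  let e := enumFC (cf (cf (cf (cs v)))).length
  let w := cs (cf (cf (cs v)))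
  let κ := cs (cf (cs v))
  let N := (cs (cs v)).length
  (fun ans => if h : ans.length < (shortList N).length then .inr ((shortList N)[ans.length])
    else if ans.length < (shortList N).length + N then
      act (e.1.query (w, ans.take (ans.length - (shortList N).length)))
    else .inr κ,
   fun C => decide (ChkO act v C))

/-- `f` is an optimal proof system for `K` relative to `X`. -/
def IsOptimalRel (X : Oracle) (K : DecisionProblem) (f : FN) : Prop :=
  IsProofSystemRel X K f ∧ ∀ g, IsProofSystemRel X K g → ∃ p : Polynomial ℕ,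
    ∀ w, ∃ w' : List Bool, w'.length ≤ p.eval w.length ∧ f.run X w' = g.run X w

/-! ## The local statements -/

/-- the values of `g` are not in `Kc` -/
def PSnd (act : Act) (g : FN) (w : List Bool) (C : Oracle) : Prop :=
  ¬ ∃ u, KcP act (g.run (Xo act C) w) u C

/-- `e` presents a language of NP ∩ coNP, at `x` -/
def PGood (act : Act) (e : Ver × Ver) (x : List Bool) (C : Oracle) : Prop :=
  Acc act e.1 x C ↔ ¬ Acc act e.2 x C

/-- `f` reduces `tl i J₀` to the language presented by `e`, at `x` -/
def PRed (act : Act) (f : FN) (i J₀ : ℕ) (e : Ver × Ver) (x : List Bool) (C : Oracle) : Prop :=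
  (tl i J₀ C x = true → Acc act e.1 (f.run (Xo act C) x) C) ∧
  (tl i J₀ C x = false → Acc act e.2 (f.run (Xo act C) x) C)

end Pool.Agent.PudOpt
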