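import Mathlib
import Pool.Agent.PudOpt.Defs

set_option autoImplicit false

/-!
# O1: words of given types, default contents
-/

namespace Pool.Agent.PudOpt

open N68a2faeb N793a5b8e N487b59b3 Pool.Agent.Helper22 Pool.Agent.PudOr Pool.Agent.PudTal
open scoped Classical

@[simp] theorem wd_length (t : ℕ) (y : List Bool) : (wd t y).length = y.length + t + 1 := by
  simp [wd]; omega

theorem wd_inj {t t' : ℕ} {y y' : List Bool} (h : wd t y = wd t' y') : t = t' ∧ y = y' := by
  induction t generalizing t' with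
  | zero =>
    cases t' with
    | zero => simpa [wd] using h
    | succ t' => simp [wd, List.replicate_succ] at h
  | succ t ih =>
    cases t' with
    | zero => simp [wd, List.replicate_succ] at h
    | succ t' =>
      have h1 : wd t y = wd t' y' := by
        simpa [wd, List.replicate_succ] using h
      obtain ⟨h2, h3⟩ := ih h1
      exact ⟨by rw [h2], h3⟩

theorem O1_two_pow (n : ℕ) : n + 1 ≤ 2 ^ n := by
  induction n with
  | zero => norm_num
  | succ n ih => rw [pow_succ]; omega

/-- there is room for all types at the scales `j ≥ 1` -/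
theorem sc_room {j : ℕ} (hj : 1 ≤ j) : 4 * j + 8 ≤ sc j := by
  induction j, hj using Nat.le_induction with
  | base => norm_num [sc]
  | succ j hj ih =>
    have h1 : sc (j + 1) = 2 ^ (sc j + 2) := rfl
    have h2 := O1_two_pow (sc j)
    rw [h1, pow_add]
    omega

/-- `HasT C j t` depends on the words of length `sc j` only -/
theorem hasT_congr {C C' : Oracle} {j : ℕ} (h : ∀ q : List Bool, q.length = sc j → C q = C' q)
    (t : ℕ) : HasT C j t ↔ HasT C' j t := by
  unfold HasT
  constructor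
  · rintro ⟨y, hy, hC⟩
    refine ⟨y, hy, ?_⟩
    rw [← h _ (by rw [wd_length]; exact hy)]
    exact hC
  · rintro ⟨y, hy, hC⟩
    refine ⟨y, hy, ?_⟩
    rw [h _ (by rw [wd_length]; exact hy)]
    exact hC

theorem O1_absOK_mp {C C' : Oracle} {j : ℕ} (h : ∀ q : List Bool, q.length = sc j → C q = C' q)
    (H : AbsOK C j) : AbsOK C' j := by
  have e := hasT_congr h
  refine ⟨?_, ?_, ?_, ?_⟩
  · rw [← e, ← e]
    exact H.disj
  · rw [← e, ← e, ← e]
    exact H.some
  · intro k hk h1 i hi
    rw [← e]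
    exact H.low k hk ((e _).2 h1) i hi
  · intro k hk
    rw [← e]
    rcases H.cert k hk with h1 | ⟨i, hi, h1⟩
    · exact Or.inl h1
    · exact Or.inr ⟨i, hi, (e _).1 h1⟩

theorem absOK_congr {C C' : Oracle} {j : ℕ} (h : ∀ q : List Bool, q.length = sc j → C q = C' q) :
    AbsOK C j ↔ AbsOK C' j :=
  ⟨O1_absOK_mp h, O1_absOK_mp fun q hq => (h q hq).symm⟩

theorem prot_congr {C C' : Oracle} {j : ℕ} (h : ∀ q : List Bool, q.length = sc j → C q = C' q)
    (m : ℕ) : Prot m C j ↔ Prot m C' j := by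
  unfold Prot
  constructor
  · intro H k hk
    rw [← hasT_congr h]
    exact H k hk
  · intro H k hk
    rw [hasT_congr h]
    exact H k hk

theorem O1_hasT_dflt {j t : ℕ} : HasT dflt j t ↔ (t = 0 ∨ ∃ k, t = 3 + 2 * k) ∧ t + 1 ≤ sc j := by
  constructor
  · rintro ⟨y, hy, hC⟩
    unfold dflt at hC
    rw [decide_eq_true_eq] at hC
    obtain ⟨t', u, ht', hq⟩ := hC
    obtain ⟨rfl, -⟩ := wd_inj hq
    exact ⟨ht', by omega⟩
  · rintro ⟨ht, hl⟩
    refine ⟨List.replicate (sc j - 1 - t) false, ?_, ?_⟩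
    · rw [List.length_replicate]
      omega
    · unfold dflt
      rw [decide_eq_true_eq]
      exact ⟨t, sc j - 1 - t, ht, rfl⟩

theorem O1_sc_pos (j : ℕ) : 2 ≤ sc j := by
  rcases Nat.eq_zero_or_pos j with rfl | hj
  · exact le_refl 2
  · have := sc_room hj
    omega

theorem dflt_ok {C : Oracle} {j : ℕ} (h : ∀ q : List Bool, q.length = sc j → C q = dflt q) :
    AbsOK C j ∧ ∀ m, Prot m C j := by
  have e : ∀ t, HasT C j t ↔ (t = 0 ∨ ∃ k, t = 3 + 2 * k) ∧ t + 1 ≤ sc j := fun t => by
    rw [hasT_congr h]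
    exact O1_hasT_dflt
  have hno : ∀ k, ¬ HasT C j (2 + 2 * k) := by
    intro k
    rw [e]
    rintro ⟨h1 | ⟨k', h1⟩, -⟩
    · omega
    · omega
  refine ⟨⟨?_, ?_, ?_, ?_⟩, fun m k _ => hno k⟩
  · rintro ⟨-, h1⟩
    rw [e] at h1
    obtain ⟨h1 | ⟨k', h1⟩, -⟩ := h1
    · omega
    · omega
  · left
    rw [e]
    have := O1_sc_pos j
    exact ⟨Or.inl rfl, by omega⟩
  · intro k _ _ i _
    exact hno i
  · intro k hk
    left
    rw [e]
    have := sc_room (show 1 ≤ j by omega)
    exact ⟨Or.inr ⟨k, rfl⟩, by omega⟩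

theorem isZ_length {c : Cond} {q : List Bool} (h : IsZ c q) : ∃ j, c.J ≤ j ∧ q.length = sc j := by
  obtain ⟨j, hj, _, k, _, y, _, hl⟩ := h
  exact ⟨j, hj, hl⟩

/-- a compatible set has no excluded violation -/
theorem not_isZ {c : Cond} {C : Oracle} (h : Comp c C) {q : List Bool} (hq : IsZ c q) :
    C q = false := by
  obtain ⟨j, hj, hf, k, hk, y, rfl, hl⟩ := hq
  rw [Bool.eq_false_iff, Ne]
  intro h1
  refine (h.2 j hj).2 hf k hk ⟨y, ?_, h1⟩
  rw [wd_length] at hl
  exact hl

/-- cutting `C` at a length and continuing by default -/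
noncomputable def cut (C : Oracle) (n : ℕ) : Oracle := fun q =>
  if q.length ≤ n then C q else dflt q

theorem cut_agree (C : Oracle) (n : ℕ) : Agree n (cut C n) C := by
  intro q hq
  unfold cut
  rw [if_pos hq]

theorem cut_comp {C : Oracle} (hC : ∀ j, AbsOK C j) {c : Cond} {n : ℕ} (hJ : sc c.J ≤ n)
    (h1 : ∀ q : List Bool, q.length < sc c.J → (C q = true ↔ q ∈ c.pos))
    (h2 : ∀ q : List Bool, q.length ≤ n → C q = true → ¬ IsZ c q) : Comp c (cut C n) := by
  refine ⟨?_, ?_⟩
  · intro q hq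
    have h3 : cut C n q = C q := cut_agree C n q (by omega)
    rw [h3]
    exact h1 q hq
  · intro j hj
    by_cases hn : sc j ≤ n
    · have hag : ∀ q : List Bool, q.length = sc j → C q = cut C n q := fun q hq =>
        (cut_agree C n q (by omega)).symm
      refine ⟨(absOK_congr hag).1 (hC j), fun hf => ?_⟩
      rw [← prot_congr hag]
      rintro k hk ⟨y, hy, hy1⟩
      have hl : (wd (2 + 2 * k) y).length = sc j := by
        rw [wd_length]
        exact hy
      exact h2 _ (by omega) hy1 ⟨j, hj, hf, k, hk, y, rfl, hl⟩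
    · have hag : ∀ q : List Bool, q.length = sc j → cut C n q = dflt q := by
        intro q hq
        unfold cut
        rw [if_neg (by omega)]
      exact ⟨(dflt_ok hag).1, fun _ => (dflt_ok hag).2 c.m⟩

end Pool.Agent.PudOpt
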