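import Mathlib
import Pool.Agent.PudOpt.O1

set_option autoImplicit false

/-!
# O1g: generic sets
-/

namespace Pool.Agent.PudOpt

open N68a2faeb N793a5b8e N487b59b3 Pool.Agent.Helper22 Pool.Agent.PudOr Pool.Agent.PudTal
open scoped Classical

/-- raising the scale bound -/
theorem O1g_raiseJ (p : Cond) (C₀ : Oracle) (h₀ : Comp p C₀) (J' : ℕ) (hJ : p.J ≤ J') :
    ∃ p' : Cond, p'.m = p.m ∧ p'.J = J' ∧ Comp p' C₀ ∧ (∀ C', Comp p' C' → Comp p C') ∧
      ∀ C', Comp p' C' → ∀ q : List Bool, q.length < sc J' → C' q = C₀ q := by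
  have hfin : {q : List Bool | q.length < sc J' ∧ C₀ q = true}.Finite :=
    (List.finite_length_lt Bool (sc J')).subset fun q hq => hq.1
  have hmem : ∀ q : List Bool, q ∈ hfin.toFinset.toList ↔ q.length < sc J' ∧ C₀ q = true := by
    intro q
    rw [Finset.mem_toList, Set.Finite.mem_toFinset]
    exact Iff.rfl
  have hagree : ∀ C', Comp (⟨p.m, J', hfin.toFinset.toList⟩ : Cond) C' →
      ∀ q : List Bool, q.length < sc J' → C' q = C₀ q := by
    intro C' hC' q hq
    have h1 := hC'.1 q hq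
    rw [hmem] at h1
    have h2 : C' q = true ↔ C₀ q = true := by
      rw [h1]
      exact ⟨fun h => h.2, fun h => ⟨hq, h⟩⟩
    exact Bool.eq_iff_iff.2 h2
  refine ⟨⟨p.m, J', hfin.toFinset.toList⟩, rfl, rfl, ⟨?_, ?_⟩, ?_, hagree⟩
  · intro q hq
    rw [hmem]
    exact ⟨fun h => ⟨hq, h⟩, fun h => h.2⟩
  · intro j hj
    exact h₀.2 j (hJ.trans hj)
  · intro C' hC'
    have hag := hagree C' hC'
    refine ⟨?_, ?_⟩
    · intro q hq
      rw [hag q (hq.trans_le (sc_strictMono.monotone hJ))]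
      exact h₀.1 q hq
    · intro j hj
      by_cases hjJ : J' ≤ j
      · exact hC'.2 j hjJ
      · have hlt : sc j < sc J' := sc_strictMono (not_le.1 hjJ)
        have hag' : ∀ q : List Bool, q.length = sc j → C₀ q = C' q := fun q hq =>
          (hag q (hq ▸ hlt)).symm
        exact ⟨(absOK_congr hag').1 (h₀.2 j hj).1,
          fun hf => (prot_congr hag' p.m).1 ((h₀.2 j hj).2 hf)⟩

/-- the default set from length `n` on -/
noncomputable def O1g_dflt (n : ℕ) (C₀ : Oracle) : Oracle := fun q =>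
  if q.length < n then C₀ q else dflt q

theorem O1g_dflt_ok (n : ℕ) (C₀ : Oracle) (j : ℕ) (hj : n ≤ sc j) :
    AbsOK (O1g_dflt n C₀) j ∧ ∀ m, Prot m (O1g_dflt n C₀) j := by
  apply dflt_ok
  intro q hq
  unfold O1g_dflt
  rw [if_neg (by omega)]

/-- raising the number of protected families -/
theorem O1g_raisem (p : Cond) (C₀ : Oracle) (h₀ : Comp p C₀) (m' : ℕ) (hm : p.m ≤ m') :
    Comp (⟨m', p.J, p.pos⟩ : Cond) (O1g_dflt (sc p.J) C₀) ∧
      ∀ C', Comp (⟨m', p.J, p.pos⟩ : Cond) C' → Comp p C' := by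
  refine ⟨⟨?_, ?_⟩, ?_⟩
  · intro q hq
    have : O1g_dflt (sc p.J) C₀ q = C₀ q := if_pos hq
    rw [this]
    exact h₀.1 q hq
  · intro j hj
    have := O1g_dflt_ok (sc p.J) C₀ j (sc_strictMono.monotone hj)
    exact ⟨this.1, fun _ => this.2 _⟩
  · intro C' hC'
    exact ⟨hC'.1, fun j hj => ⟨(hC'.2 j hj).1, fun hf k hk =>
      (hC'.2 j hj).2 (lt_of_lt_of_le hf hm) k (lt_of_lt_of_le hk hm)⟩⟩

/-- the step of the construction -/
theorem O1g_step (Q : List Bool → Oracle → Prop)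
    (hQ : ∀ x, ∃ n, ∀ C C', Agree n C C' → (Q x C ↔ Q x C')) (k : ℕ) (p : Cond)
    (hp : ∃ C, Comp p C) :
    ∃ p' : Cond, (∃ C, Comp p' C) ∧ (∀ C', Comp p' C' → Comp p C') ∧ p.J < p'.J ∧ k ≤ p'.m ∧
      (p.m ≤ p.J → p'.m ≤ p'.J) ∧
      ((∀ C', Comp p' C' → ∀ x, Q x C') ∨ ∃ x, ∀ C', Comp p' C' → ¬ Q x C') := by
  -- first part: decide `Q`
  have h1 : ∃ p' : Cond, (∃ C, Comp p' C) ∧ (∀ C', Comp p' C' → Comp p C') ∧ p.J < p'.J ∧
      p'.m = p.m ∧ k ≤ p'.J ∧
      ((∀ C', Comp p' C' → ∀ x, Q x C') ∨ ∃ x, ∀ C', Comp p' C' → ¬ Q x C') := by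
    by_cases hc : ∃ C₀, Comp p C₀ ∧ ∃ x, ¬ Q x C₀
    · obtain ⟨C₀, h₀, x, hx⟩ := hc
      obtain ⟨n, hn⟩ := hQ x
      obtain ⟨p', hm, hJ, hc', hsub, hag⟩ := O1g_raiseJ p C₀ h₀ (max (p.J + 1) (max n k))
        (by omega)
      refine ⟨p', ⟨C₀, hc'⟩, hsub, by omega, hm, by omega,
        Or.inr ⟨x, fun C' hC' hQ' => hx ?_⟩⟩
      have hle := le_sc (max (p.J + 1) (max n k))
      rw [← hn C' C₀ ?_]
      · exact hQ'
      · intro q hq
        exact hag C' hC' q (by omega)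
    · push Not at hc
      obtain ⟨C₀, h₀⟩ := hp
      obtain ⟨p', hm, hJ, hc', hsub, -⟩ := O1g_raiseJ p C₀ h₀ (max (p.J + 1) k) (by omega)
      exact ⟨p', ⟨C₀, hc'⟩, hsub, by omega, hm, by omega,
        Or.inl fun C' hC' x => hc C' (hsub C' hC') x⟩
  obtain ⟨p', ⟨C₁, hC₁⟩, hsub, hJ, hm, hk, hdec⟩ := h1
  obtain ⟨hc2, hsub2⟩ := O1g_raisem p' C₁ hC₁ (max p'.m k) (le_max_left _ _)
  refine ⟨⟨max p'.m k, p'.J, p'.pos⟩, ⟨_, hc2⟩, fun C' hC' => hsub C' (hsub2 C' hC'), hJ,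
    le_max_right _ _, ?_, ?_⟩
  · intro h
    have h1 : p'.m ≤ p'.J := by omega
    exact max_le h1 hk
  rcases hdec with hd | ⟨x, hx⟩
  · exact Or.inl fun C' hC' => hd C' (hsub2 C' hC')
  · exact Or.inr ⟨x, fun C' hC' => hx C' (hsub2 C' hC')⟩

theorem exists_gen {ι : Type} [Countable ι] (P : ι → List Bool → Oracle → Prop)
    (hP : ∀ i x, ∃ n, ∀ C C', Agree n C C' → (P i x C ↔ P i x C')) :
    ∃ C, (∀ j, AbsOK C j) ∧ Nonempty (Gen P C) := by
  obtain ⟨enc, henc⟩ := Countable.exists_injective_nat ι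
  let Q : ℕ → List Bool → Oracle → Prop := fun k x C => ∀ i, enc i = k → P i x C
  have hQ : ∀ k x, ∃ n, ∀ C C', Agree n C C' → (Q k x C ↔ Q k x C') := by
    intro k x
    by_cases hk : ∃ i, enc i = k
    · obtain ⟨i, rfl⟩ := hk
      obtain ⟨n, hn⟩ := hP i x
      refine ⟨n, fun C C' hag => ?_⟩
      constructor
      · intro h i' hi'
        have := henc hi'
        subst this
        exact (hn C C' hag).1 (h _ rfl)
      · intro h i' hi'
        have := henc hi'
        subst this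
        exact (hn C C' hag).2 (h _ rfl)
    · refine ⟨0, fun C C' _ => ?_⟩
      exact ⟨fun _ i hi => (hk ⟨i, hi⟩).elim, fun _ i hi => (hk ⟨i, hi⟩).elim⟩
  choose step hs1 hs2 hs3 hs4 hs6 hs5 using fun (k : ℕ) (p : {p : Cond // ∃ C, Comp p C}) =>
    O1g_step (Q k) (hQ k) (k + 1) p.1 p.2
  have h0 : ∃ C, Comp (⟨0, 0, []⟩ : Cond) C := by
    refine ⟨O1g_dflt 2 fun _ => false, ?_, ?_⟩
    · intro q hq
      have hq2 : q.length < 2 := hq
      have : O1g_dflt 2 (fun _ => false) q = false := if_pos hq2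
      rw [this]
      simp
    · intro j _
      have h2 := le_sc j
      have := O1g_dflt_ok 2 (fun _ => false) j (by omega)
      exact ⟨this.1, fun _ => this.2 _⟩
  let s : ℕ → {p : Cond // ∃ C, Comp p C} := fun n =>
    Nat.rec ⟨⟨0, 0, []⟩, h0⟩ (fun k p => ⟨step k p, hs1 k p⟩) n
  have hs : ∀ k, (s (k + 1)).1 = step k (s k) := fun k => rfl
  have hanti1 : ∀ k C', Comp (s (k + 1)).1 C' → Comp (s k).1 C' := by
    intro k C' h
    rw [hs] at h
    exact hs2 k (s k) C' h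
  have hanti : ∀ a b C', a ≤ b → Comp (s b).1 C' → Comp (s a).1 C' := by
    intro a b C' hab
    induction hab with
    | refl => exact id
    | step _ ih => exact fun h => ih (hanti1 _ _ h)
  have hJ1 : ∀ k, (s k).1.J < (s (k + 1)).1.J := by
    intro k
    rw [hs]
    exact hs3 k (s k)
  have hJ : ∀ k, k ≤ (s k).1.J := by
    intro k
    induction k with
    | zero => exact Nat.zero_le _
    | succ k ih =>
      have := hJ1 k
      omega
  have hm : ∀ k, k ≤ (s k).1.m := by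
    intro k
    cases k with
    | zero => exact Nat.zero_le _
    | succ k =>
      rw [hs]
      exact hs4 k (s k)
  have hmJ : ∀ k, (s k).1.m ≤ (s k).1.J := by
    intro k
    induction k with
    | zero => exact le_rfl
    | succ k ih =>
      rw [hs]
      exact hs6 k (s k) ih
  let C : Oracle := fun q => decide (q ∈ (s (q.length + 1)).1.pos)
  have hCag : ∀ K C', Comp (s K).1 C' → ∀ q : List Bool, q.length + 1 ≤ K → C' q = C q := by
    intro K C' hC' q hq
    have h1 := (hanti _ K C' hq hC').1 q (by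
      have h2 := hJ (q.length + 1)
      have h3 := le_sc (s (q.length + 1)).1.J
      omega)
    have h2 : C q = true ↔ q ∈ (s (q.length + 1)).1.pos := decide_eq_true_iff
    exact Bool.eq_iff_iff.2 (h1.trans h2.symm)
  have hCcomp : ∀ k, Comp (s k).1 C := by
    intro k
    refine ⟨?_, ?_⟩
    · intro q hq
      obtain ⟨C', hC'⟩ := (s (max k (q.length + 1))).2
      rw [← hCag _ C' hC' q (le_max_right _ _)]
      exact (hanti k _ C' (le_max_left _ _) hC').1 q hq
    · intro j hj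
      obtain ⟨C', hC'⟩ := (s (max k (sc j + 1))).2
      have hag : ∀ q : List Bool, q.length = sc j → C' q = C q := fun q hq =>
        hCag _ C' hC' q (by rw [hq]; exact le_max_right _ _)
      have h1 := (hanti k _ C' (le_max_left _ _) hC').2 j hj
      exact ⟨(absOK_congr hag).1 h1.1, fun hf => (prot_congr hag _).1 (h1.2 hf)⟩
  refine ⟨C, fun j => ((hCcomp 0).2 j (Nat.zero_le _)).1,
    ⟨⟨fun k => (s k).1, hCcomp, hanti1, fun k => (hJ1 k).le, hm, hmJ, ?_⟩⟩⟩
  intro i hi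
  refine ⟨enc i + 1, fun C' hC' x => ?_⟩
  have hd := hs5 (enc i) (s (enc i))
  rw [← hs] at hd
  rcases hd with hd | ⟨x, hx⟩
  · exact hd C' hC' x i rfl
  · exact (hx C (hCcomp (enc i + 1)) fun i' hi' => by
      have := henc hi'
      subst this
      exact hi x).elim

end Pool.Agent.PudOpt
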