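import Mathlib
import Pool.Agent.PudOpt.O1

set_option autoImplicit false

/-!
# O2: the universal search problem
-/

namespace Pool.Agent.PudOpt

open N68a2faeb N793a5b8e N487b59b3 Pool.Agent.Helper22 Pool.Agent.PudOr Pool.Agent.PudTal
open scoped Classical

theorem O2_confTF_trunc (act : Act) (z : List Bool) {N : ℕ} (h : z.length ≤ N) :
    ConfTF (trunc act N) z ↔ ConfTF act z := by
  unfold ConfTF
  rw [trunc_trunc act h]

/-- what the universal verifier accepts -/
def O2_good (act : Act) (C : Oracle) (z : List Bool) : List Bool → Prop
  | [] => ¬ ConfTF act z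
  | true :: q => ¬ ConfTF act z ∨
      (q.length < sc (enumTF (cf (cf z)).length).2.J ∧
        ¬ (C q = true ↔ q ∈ (enumTF (cf (cf z)).length).2.pos)) ∨
      (C q = true ∧ IsZ (enumTF (cf (cf z)).length).2 q)
  | false :: w => ¬ ConfTF act z ∨
      (w.length ≤ (enumTF (cf (cf z)).length).1.2.eval (cs (cf z)).length ∧
        (enumTF (cf (cf z)).length).1.1.run (Xo act C) (cs (cf z), w) = true)

theorem O2_thTF_nil (act : Act) (z : List Bool) :
    thTF act (cd z []) = (fun _ => .inl false, fun _ => decide (¬ ConfTF act z)) := by
  simp only [thTF, cf_cd, cs_cd]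

theorem O2_thTF_true (act : Act) (z q : List Bool) :
    thTF act (cd z (true :: q)) = (fun _ => .inr q, fun C => decide (¬ ConfTF act z ∨
      (q.length < sc (enumTF (cf (cf z)).length).2.J ∧
        ¬ (C q = true ↔ q ∈ (enumTF (cf (cf z)).length).2.pos)) ∨
      (C q = true ∧ IsZ (enumTF (cf (cf z)).length).2 q))) := by
  simp only [thTF, cf_cd, cs_cd]

theorem O2_thTF_false (act : Act) (z w : List Bool) :
    thTF act (cd z (false :: w)) =
      (simStrat act (enumTF (cf (cf z)).length).1.1 (cs (cf z), w),
        fun C => decide (¬ ConfTF act z ∨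
      (w.length ≤ (enumTF (cf (cf z)).length).1.2.eval (cs (cf z)).length ∧
        (enumTF (cf (cf z)).length).1.1.run (Xo act C) (cs (cf z), w) = true))) := by
  simp only [thTF, cf_cd, cs_cd]

theorem O2_run {act : Act} (hs : Short act) {D : OracleProc (List Bool) Bool}
    (hD : Drives act D thTF) (C : Oracle) (z y : List Bool) :
    D.run (Xo act C) (cd z y) = true ↔ O2_good act C z y := by
  have hlen : (cd z y).length = 2 * z.length + 1 + y.length := cd_length z y
  have hz : z.length ≤ (cd z y).length := by omega
  have hconf := O2_confTF_trunc act z hz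
  rcases y with _ | ⟨b, y⟩
  · have h := hD C (cd z []) (by
      intro ans q h
      rw [O2_thTF_nil] at h
      exact absurd h (by simp)) (by
      intro C' _
      rw [O2_thTF_nil])
    rw [h, O2_thTF_nil]
    simp only [decide_eq_true_eq, O2_good]
    rw [hconf]
  · cases b
    · -- false
      set N := (cd z (false :: y)).length with hN
      have hQ : ConfTF (trunc act N) z →
          y.length ≤ (enumTF (cf (cf z)).length).1.2.eval (cs (cf z)).length →
          QB (enumTF (cf (cf z)).length).1.1 (cs (cf z), y) N := by
        intro h1 h2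
        rw [hconf] at h1
        exact ((h1.1 y h2).2).mono hz
      have h := hD C (cd z (false :: y)) (by
        intro ans q h
        rw [← hN, O2_thTF_false] at h
        simp only [simStrat, trunc] at h
        split_ifs at h with h1
        exact (hs _ _ h).trans h1.le) (by
        intro C' h
        rw [← hN, O2_thTF_false] at h ⊢
        simp only [sAns_sim] at h
        simp only
        by_cases h1 : ConfTF (trunc act N) z
        · by_cases h2 : y.length ≤ (enumTF (cf (cf z)).length).1.2.eval (cs (cf z)).length
          · have h3 := (used_of_answers (trunc act N) _ ((hQ h1 h2).1) h).2.2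
            rw [h3]
          · simp only [h2, false_and, or_false]
        · simp only [h1, not_false_eq_true, true_or])
      rw [h, ← hN, O2_thTF_false]
      simp only [decide_eq_true_eq, O2_good]
      rw [hconf]
      by_cases h1 : ConfTF act z
      · have h1' : ConfTF (trunc act N) z := hconf.2 h1
        constructor
        · rintro (h2 | ⟨h2, h3⟩)
          · exact Or.inl h2
          · rw [run_trunc act _ (hQ h1' h2)] at h3
            exact Or.inr ⟨h2, h3⟩
        · rintro (h2 | ⟨h2, h3⟩)
          · exact Or.inl h2
          · refine Or.inr ⟨h2, ?_⟩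
            rw [run_trunc act _ (hQ h1' h2)]
            exact h3
      · simp only [h1, not_false_eq_true, true_or]
    · -- true
      have h := hD C (cd z (true :: y)) (by
        intro ans q h
        rw [O2_thTF_true] at h
        simp only [Sum.inr.injEq] at h
        subst h
        simp only [List.length_cons] at hlen
        omega) (by
        intro C' h
        rw [O2_thTF_true] at h ⊢
        obtain ⟨n, hn⟩ : ∃ n, (cd z (true :: y)).length = n + 1 :=
          ⟨(cd z (true :: y)).length - 1, by omega⟩
        rw [hn] at h
        simp only [sAns, look, List.cons.injEq] at h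
        simp only [h.1])
      rw [h, O2_thTF_true]
      simp only [decide_eq_true_eq, O2_good]
      rw [hconf]

theorem O2_total {act : Act} (hs : Short act) {C : Oracle} (hC : ∀ j, AbsOK C j)
    (z : List Bool) : ∃ y : List Bool, y.length ≤ z.length + 1 ∧ O2_good act C z y := by
  by_cases hconf : ConfTF act z
  · by_cases h1 : ∃ q : List Bool, q.length < sc (enumTF (cf (cf z)).length).2.J ∧
        ¬ (C q = true ↔ q ∈ (enumTF (cf (cf z)).length).2.pos)
    · obtain ⟨q, hq1, hq2⟩ := h1
      have := hconf.2.1
      refine ⟨true :: q, ?_, Or.inr (Or.inl ⟨hq1, hq2⟩)⟩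
      simp only [List.length_cons]
      omega
    · by_cases h2 : ∃ q : List Bool, q.length ≤ z.length ∧ C q = true ∧
          IsZ (enumTF (cf (cf z)).length).2 q
      · obtain ⟨q, hq1, hq2⟩ := h2
        refine ⟨true :: q, ?_, Or.inr (Or.inr hq2)⟩
        simp only [List.length_cons]
        omega
      · have h3 : Comp (enumTF (cf (cf z)).length).2 (cut C z.length) := by
          refine cut_comp hC hconf.2.1 ?_ ?_
          · intro q hq
            by_contra h
            exact h1 ⟨q, hq, h⟩
          · intro q hq hq2 hq3
            exact h2 ⟨q, hq, hq2, hq3⟩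
        obtain ⟨w, hw1, hw2⟩ := hconf.2.2 _ h3
        have h4 := hconf.1 w hw1
        rw [run_trunc act _ h4.2, run_local hs _ h4.2 (cut_agree C z.length)] at hw2
        refine ⟨false :: w, ?_, Or.inr ⟨hw1, hw2⟩⟩
        simp only [List.length_cons]
        have := h4.1
        omega
  · exact ⟨[], by simp, hconf⟩

theorem tfnp_complete {act : Act} (hs : Short act) {D : OracleProc (List Bool) Bool}
    (hD : Drives act D thTF) {C : Oracle} (hC : ∀ j, AbsOK C j)
    (hforce : ∀ e : Ver, (∀ x, Acc act e x C) →
      ∃ c : Cond, Comp c C ∧ ∀ C', Comp c C' → ∀ x, Acc act e x C') :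
    ∃ T : TFNPo (Xo act C), T.IsComplete := by
  have hg : FP fun a : List Bool × List Bool => cd a.1 a.2 := FP.cd FP.fst FP.snd
  have hrun : ∀ z y : List Bool, (comap D (fun a => cd a.1 a.2) hg).run (Xo act C) (z, y) = true ↔
      O2_good act C z y := by
    intro z y
    rw [comap_run]
    exact O2_run hs hD C z y
  refine ⟨⟨comap D (fun a => cd a.1 a.2) hg, Polynomial.X + 1, fun z => ?_⟩, fun S => ?_⟩
  · obtain ⟨y, hy1, hy2⟩ := O2_total hs hC z
    refine ⟨y, ?_, (hrun z y).2 hy2⟩
    simpa using hy1
  · obtain ⟨c, hc, hc2⟩ := hforce (S.R, S.p) S.total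
    obtain ⟨n, hn⟩ := enumTF_surj ((S.R, S.p), c)
    obtain ⟨q, hq⟩ := QB_ver (S.R, S.p)
    set r : Polynomial ℕ := q + Polynomial.C (sc c.J) with hr
    have hf : FP fun x : List Bool => cd (cd (un n) x) (un (r.eval x.length)) :=
      FP.cd (FP.cd (FP.const _) FP.id) (FP.un_poly FP.id r)
    refine ⟨pureProc (fun x => cd (cd (un n) x) (un (r.eval x.length))) hf,
      pureProc (fun p => p.2.tail) (FP.tail FP.snd), fun x y _ hy => ?_⟩
    rw [pureProc_run] at hy
    rw [pureProc_run]
    simp only
    set z := cd (cd (un n) x) (un (r.eval x.length)) with hz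
    have hy' := (hrun z y).1 hy
    have e1 : (cf (cf z)).length = n := by
      rw [hz, cf_cd, cf_cd, un_length]
    have e2 : cs (cf z) = x := by rw [hz, cf_cd, cs_cd]
    have hzl : q.eval x.length ≤ z.length ∧ sc c.J ≤ z.length := by
      have h1 : z.length = 2 * (cd (un n) x).length + 1 + r.eval x.length := by
        rw [hz, cd_length, un_length]
      have h2 : r.eval x.length = q.eval x.length + sc c.J := by
        rw [hr, Polynomial.eval_add, Polynomial.eval_C]
      omega
    have hQ := hq x z.length hzl.1
    have hconf : ConfTF act z := by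
      unfold ConfTF
      simp only [e1, e2, hn]
      refine ⟨hQ, hzl.2, fun C' hC' => ?_⟩
      obtain ⟨w, hw1, hw2⟩ := hc2 C' hC' x
      refine ⟨w, hw1, ?_⟩
      rw [run_trunc act _ (hQ w hw1).2]
      exact hw2
    rcases y with _ | ⟨b, y⟩
    · exact absurd hconf hy'
    · cases b
      · simp only [O2_good, e1, e2, hn] at hy'
        rcases hy' with h | h
        · exact absurd hconf h
        · exact h
      · simp only [O2_good, e1, hn] at hy'
        rcases hy' with h | h | h
        · exact absurd hconf h
        · exact absurd (hc.1 y h.1) h.2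
        · have := not_isZ hc h.2
          rw [this] at h
          exact absurd h.1 (by simp)

end Pool.Agent.PudOpt
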