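import Mathlib
import Pool.Agent.PudOpt.O1

set_option autoImplicit false

/-!
# O3a: the verifier of the universal UP language
-/

namespace Pool.Agent.PudOpt

open N68a2faeb N793a5b8e N487b59b3 Pool.Agent.Helper22 Pool.Agent.PudOr Pool.Agent.PudTal
open scoped Classical

theorem O3a_ConfUP {act : Act} {z : List Bool} {N : ℕ} (h : z.length ≤ N) :
    ConfUP (trunc act N) z ↔ ConfUP act z := by
  simp only [ConfUP, trunc_trunc act h]

theorem O3a_QB {act : Act} {z w : List Bool} {C : Oracle}
    (h : PredUP act z w C) : QB (enumTF (cf (cf z)).length).1.1 (cs (cf z), w) z.length :=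
  (h.1.1 w h.2.1).2

theorem O3a_PredUP {act : Act} {z w : List Bool} {N : ℕ} (h : z.length ≤ N) (C : Oracle) :
    PredUP (trunc act N) z w C ↔ PredUP act z w C := by
  constructor
  · intro h1
    have hq := (O3a_QB h1).mono h
    obtain ⟨h2, h3, h4, h5, h6⟩ := h1
    rw [run_trunc act _ hq C] at h5
    rw [used_trunc act _ hq C] at h6
    exact ⟨(O3a_ConfUP h).1 h2, h3, h4, h5, h6⟩
  · intro h1
    have hq := (O3a_QB h1).mono h
    obtain ⟨h2, h3, h4, h5, h6⟩ := h1
    refine ⟨(O3a_ConfUP h).2 h2, h3, h4, ?_, ?_⟩
    · rw [run_trunc act _ hq C]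
      exact h5
    · rw [used_trunc act _ hq C]
      exact h6

theorem O3a_strat_lt {act : Act} {v ans : List Bool}
    (h : ans.length < (shortList (sB2 (cf (cf v)))).length) :
    (thUP act v).1 ans = .inr ((shortList (sB2 (cf (cf v))))[ans.length]) := by
  simp only [thUP, dif_pos h]

theorem O3a_strat_ge {act : Act} {v ans : List Bool}
    (h : ¬ ans.length < (shortList (sB2 (cf (cf v)))).length) :
    (thUP act v).1 ans = act ((enumTF (cf (cf (cf (cf v)))).length).1.1.query
      ((cs (cf (cf (cf v))), cs (cf v)),
        ans.take (ans.length - (shortList (sB2 (cf (cf v)))).length))) := by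
  simp only [thUP, dif_neg h]

/-- the strategy, after the list of short words -/
theorem O3a_sAns_add (act : Act) (v : List Bool) (C : Oracle) (k : ℕ) :
    sAns (thUP act v).1 C ((shortList (sB2 (cf (cf v)))).length + k) =
      (enumTF (cf (cf (cf (cf v)))).length).1.1.answers (Xo act C)
        (cs (cf (cf (cf v))), cs (cf v)) k ++
        sAns (thUP act v).1 C (shortList (sB2 (cf (cf v)))).length := by
  induction k with
  | zero => rw [Nat.add_zero, OracleProc.answers, List.nil_append]
  | succ k ih =>
    rw [← Nat.add_assoc, sAns, ih, OracleProc.answers]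
    rw [List.cons_append]
    have hlen := A5a_sAns_length (thUP act v).1 C (shortList (sB2 (cf (cf v)))).length
    have hans := OracleProc.answers_length (enumTF (cf (cf (cf (cf v)))).length).1.1
      (Xo act C) (cs (cf (cf (cf v))), cs (cf v)) k
    generalize sAns (thUP act v).1 C (shortList (sB2 (cf (cf v)))).length = u at *
    generalize (enumTF (cf (cf (cf (cf v)))).length).1.1.answers (Xo act C)
        (cs (cf (cf (cf v))), cs (cf v)) k = t at *
    have h1 : ¬ (t ++ u).length < (shortList (sB2 (cf (cf v)))).length := by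
      rw [List.length_append]
      omega
    have h2 : (t ++ u).take ((t ++ u).length - (shortList (sB2 (cf (cf v)))).length) = t := by
      rw [List.length_append, hlen, Nat.add_sub_cancel, List.take_left]
    rw [O3a_strat_ge h1, h2]
    rfl

theorem O3a_short {act : Act} {v : List Bool} {C C' : Oracle}
    (h : sAns (thUP act v).1 C' (shortList (sB2 (cf (cf v)))).length =
      sAns (thUP act v).1 C (shortList (sB2 (cf (cf v)))).length) :
    ∀ q ∈ shortList (sB2 (cf (cf v))), C' q = C q := by
  intro q hq
  obtain ⟨n, hn, rfl⟩ := List.getElem_of_mem hq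
  obtain ⟨k, hk⟩ := Nat.exists_eq_add_of_le (show n + 1 ≤ (shortList (sB2 (cf (cf v)))).length
    by omega)
  rw [hk] at h
  have h1 := A5a_sAns_le k h
  rw [sAns, sAns] at h1
  have h2 := (List.cons.inj h1).1
  have key : ∀ D : Oracle, (thUP act v).1 (sAns (thUP act v).1 D n) =
      .inr ((shortList (sB2 (cf (cf v))))[n]) := by
    intro D
    have h3 := A5a_sAns_length (thUP act v).1 D n
    rw [O3a_strat_lt (by rw [h3]; exact hn)]
    simp only [h3]
  rw [key, key] at h2
  exact h2

theorem O3a_sB2_pos (z : List Bool) : 0 < sB2 z := by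
  rw [sB2]; positivity

theorem O3a_sB2_ge (z : List Bool) : z.length ≤ sB2 z := by
  rw [sB2]; nlinarith [Nat.zero_le z.length]

theorem O3a_determinacy {act : Act} {v : List Bool} {C C' : Oracle}
    (hv : 2 * sB2 (cf (cf v)) + (cf (cf v)).length ≤ v.length)
    (h : sAns (thUP act v).1 C' v.length = sAns (thUP act v).1 C v.length)
    (hP : PredUP act (cf (cf v)) (cs (cf v)) C) : PredUP act (cf (cf v)) (cs (cf v)) C' := by
  have hq := O3a_QB hP
  have hN := shortList_length (sB2 (cf (cf v))) (O3a_sB2_pos _)
  set M := (enumTF (cf (cf (cf (cf v)))).length).1.1 with hM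
  set a := (cs (cf (cf (cf v))), cs (cf v)) with ha
  obtain ⟨k, hk⟩ := Nat.exists_eq_add_of_le
    (show (shortList (sB2 (cf (cf v)))).length + (M.clock a).length ≤ v.length by
      have h1 := hq.1
      omega)
  rw [hk] at h
  have h1 := A5a_sAns_le k h
  have h2 := O3a_short (A5a_sAns_le _ h1)
  rw [O3a_sAns_add, O3a_sAns_add] at h1
  have h3 := (List.append_inj h1 (by
    rw [OracleProc.answers_length, OracleProc.answers_length])).1
  obtain ⟨h4, h5, h6⟩ := used_of_answers act M le_rfl h3
  obtain ⟨p1, p2, p3, p4, p5⟩ := hP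
  refine ⟨p1, p2, fun q hq2 => ?_, ?_, ?_⟩
  · have h7 : C' q = C q := h2 q ((mem_shortList (O3a_sB2_pos _)).2 hq2)
    rw [h7]
    exact p3 q hq2
  · exact h6.trans p4
  · intro q hq2 hz
    have hq3 : q ∈ used act M C' a := hq2
    rw [h5] at hq3
    rw [h4 q hq3]
    exact p5 q hq3 hz

theorem exists_verUP {act : Act} (hs : Short act) {D : OracleProc (List Bool) Bool}
    (hD : Drives act D thUP) : ∃ V : OracleProc (List Bool × List Bool) Bool,
      ∀ (C : Oracle) (z w : List Bool), V.run (Xo act C) (z, w) = true ↔ PredUP act z w C := by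
  let P : Polynomial ℕ := 256 * (Polynomial.X + 1) * (Polynomial.X + 1)
  let g : List Bool × List Bool → List Bool := fun a =>
    cd (cd a.1 a.2) (un (P.eval a.1.length))
  have hg : FP g := by
    have h1 : FP fun a : List Bool × List Bool => un (P.eval a.1.length) := FP.un_poly FP.fst _
    have h2 : FP fun a : List Bool × List Bool => cd a.1 a.2 := by fun_prop
    exact FP.cd h2 h1
  refine ⟨comap D g hg, fun C z w => ?_⟩
  rw [comap_run]
  set v := g (z, w) with hv
  have hcf : cf v = cd z w := by rw [hv]; exact cf_cd _ _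
  have hz : cf (cf v) = z := by rw [hcf, cf_cd]
  have hw : cs (cf v) = w := by rw [hcf, cs_cd]
  have hlen : 2 * sB2 z + z.length ≤ v.length := by
    have h1 : v = cd (cd z w) (un (P.eval z.length)) := rfl
    have h2 : P.eval z.length = 256 * (z.length + 1) * (z.length + 1) := by
      simp only [P, Polynomial.eval_mul, Polynomial.eval_ofNat, Polynomial.eval_add,
        Polynomial.eval_X, Polynomial.eval_one]
    have h3 : sB2 z = 64 * (z.length + 1) * (z.length + 1) := rfl
    rw [h1, cd_length, un_length, h2, h3]
    nlinarith [Nat.zero_le z.length]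
  have hval : ∀ C, (thUP (trunc act v.length) v).2 C =
      decide (PredUP (trunc act v.length) (cf (cf v)) (cs (cf v)) C) := fun _ => rfl
  rw [hD C v ?_ ?_]
  · rw [hval, decide_eq_true_iff, hz, hw]
    exact O3a_PredUP (by omega) C
  · intro ans q hq
    by_cases h1 : ans.length < (shortList (sB2 (cf (cf v)))).length
    · rw [O3a_strat_lt h1] at hq
      have h3 : q ∈ shortList (sB2 (cf (cf v))) := by
        rw [← Sum.inr.inj hq]
        exact List.getElem_mem h1
      rw [mem_shortList (O3a_sB2_pos _), hz] at h3
      have h4 := Nat.lt_two_pow_self (n := q.length)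
      omega
    · rw [O3a_strat_ge h1, trunc] at hq
      split_ifs at hq with h3
      exact (hs _ _ hq).trans h3.le
  · intro C' hC'
    rw [hval, hval, decide_eq_decide]
    have hv' : 2 * sB2 (cf (cf v)) + (cf (cf v)).length ≤ v.length := by rw [hz]; exact hlen
    exact ⟨O3a_determinacy hv' hC'.symm, O3a_determinacy hv' hC'⟩

end Pool.Agent.PudOpt
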