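import Mathlib
import Pool.Agent.PudOpt.O1

set_option autoImplicit false

/-!
# O3b: witnesses of the universal UP language are unique
-/

namespace Pool.Agent.PudOpt

open N68a2faeb N793a5b8e N487b59b3 Pool.Agent.Helper22 Pool.Agent.PudOr Pool.Agent.PudTal
open scoped Classical

/-- a list of fewer than `2 ^ (n - 1 - t)` words misses some word of type `t` and length `n` -/
theorem exists_unused_type (n t : ℕ) (ht : t + 1 ≤ n) (Q : List (List Bool))
    (hQ : Q.length < 2 ^ (n - 1 - t)) : ∃ y : List Bool, y.length + t + 1 = n ∧ wd t y ∉ Q := by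
  by_contra hcon
  push Not at hcon
  let g : (Fin (n - 1 - t) → Bool) → List Bool := fun f => wd t (List.ofFn f)
  have hg : Function.Injective g := by
    intro f f' h
    exact List.ofFn_injective (wd_inj h).2
  have hsub : Finset.univ.image g ⊆ Q.toFinset := by
    intro q hq
    obtain ⟨f, _, rfl⟩ := Finset.mem_image.1 hq
    rw [List.mem_toFinset]
    exact hcon _ (by simp; omega)
  have h1 := Finset.card_le_card hsub
  rw [Finset.card_image_of_injective _ hg, Finset.card_univ, Fintype.card_fun, Fintype.card_bool,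
    Fintype.card_fin] at h1
  have h2 := List.toFinset_card_le Q
  omega

theorem predUP_unique {act : Act} (hs : Short act) {C : Oracle} (hC : ∀ j, AbsOK C j)
    (z w w' : List Bool) (h : PredUP act z w C) (h' : PredUP act z w' C) : w = w' := by
  unfold PredUP at h h'
  set e := enumTF (cf (cf z)).length with he
  set x := cs (cf z) with hx
  obtain ⟨hconf, hw, hshort, hrun, hus⟩ := h
  obtain ⟨_, hw', _, hrun', hus'⟩ := h'
  unfold ConfUP at hconf
  rw [← he, ← hx] at hconf
  obtain ⟨hq, hJ, huniq⟩ := hconf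
  set c := e.2 with hc
  have hQ := hq w hw
  have hQ' := hq w' hw'
  set U := used act e.1.1 C (x, w) ++ used act e.1.1 C (x, w') with hU
  have hUlen : U.length ≤ 2 * z.length := by
    have a1 := (used_length act e.1.1 C (x, w)).trans hQ.2.1
    have a2 := (used_length act e.1.1 C (x, w')).trans hQ'.2.1
    rw [hU, List.length_append]
    omega
  -- the big scales
  let big : ℕ → Prop := fun j => c.J ≤ j ∧ fam j < c.m ∧ sB2 z < 2 ^ sc j
  let Need : ℕ → ℕ → Prop := fun j t =>
    (t = 0 ∧ ¬ HasT C j 0 ∧ ¬ HasT C j 1) ∨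
    (∃ k < j, t = 3 + 2 * k ∧ ¬ HasT C j (3 + 2 * k) ∧
      ∀ i ≤ k + 1, i < c.m ∨ ¬ HasT C j (2 + 2 * i))
  have hNeed_le : ∀ j t, Need j t → t ≤ 2 * j + 1 := by
    rintro j t (⟨rfl, _⟩ | ⟨k, hk, rfl, _⟩)
    · omega
    · omega
  have hex : ∀ j t, ∃ y : List Bool, big j → t ≤ 2 * j + 1 →
      (y.length + t + 1 = sc j ∧ wd t y ∉ U) := by
    intro j t
    by_cases hb : big j
    · by_cases ht : t ≤ 2 * j + 1
      · have h1 : 1 ≤ j := by
          by_contra h0
          have h00 : j = 0 := by omega
          have h2 := hb.2.2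
          rw [h00] at h2
          unfold sB2 at h2
          have h3 : 64 * 1 * 1 ≤ 64 * (z.length + 1) * (z.length + 1) :=
            Nat.mul_le_mul (Nat.mul_le_mul le_rfl (by omega)) (by omega)
          have h4 : (2 : ℕ) ^ sc 0 = 4 := by
            show (2 : ℕ) ^ 2 = 4
            norm_num
          omega
        have h2 := sc_room h1
        have h3 : U.length < 2 ^ (sc j - 1 - t) := by
          by_contra h4
          rw [not_lt] at h4
          have h5 : 2 ^ (sc j - 1 - t) ≤ 2 * z.length := h4.trans hUlen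
          have h6 : 2 ^ (sc j - 1 - t) * 2 ^ (sc j - 1 - t) ≤ (2 * z.length) * (2 * z.length) :=
            Nat.mul_le_mul h5 h5
          rw [← pow_add] at h6
          have h7 : 2 ^ sc j ≤ 2 ^ ((sc j - 1 - t) + (sc j - 1 - t)) :=
            Nat.pow_le_pow_right (by norm_num) (by omega)
          have h8 := hb.2.2
          unfold sB2 at h8
          have h9 : (2 * z.length) * (2 * z.length) ≤ 64 * (z.length + 1) * (z.length + 1) := by
            nlinarith
          omega
        obtain ⟨y, hy⟩ := exists_unused_type (sc j) t (by omega) U h3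
        exact ⟨y, fun _ _ => hy⟩
      · exact ⟨[], fun _ h => absurd h ht⟩
    · exact ⟨[], fun h => absurd h hb⟩
  choose nw hnw using hex
  let Del : List Bool → Prop := fun q =>
    ∃ j, big j ∧ ∃ k < c.m, ∃ y, q = wd (2 + 2 * k) y ∧ q.length = sc j
  let New : List Bool → Prop := fun q => ∃ j, big j ∧ ∃ t, Need j t ∧ q = wd t (nw j t)
  let C' : Oracle := fun q => decide ((C q = true ∧ ¬ Del q) ∨ New q)
  have hC'iff : ∀ q, C' q = true ↔ ((C q = true ∧ ¬ Del q) ∨ New q) := fun q => by
    simp only [C', decide_eq_true_eq]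
  have hDelZ : ∀ q, Del q → IsZ c q := by
    rintro q ⟨j, hb, k, hk, y, hy, hl⟩
    exact ⟨j, hb.1, hb.2.1, k, hk, y, hy, hl⟩
  have hDelLen : ∀ q, Del q → ∃ j, big j ∧ q.length = sc j := by
    rintro q ⟨j, hb, k, hk, y, hy, hl⟩
    exact ⟨j, hb, hl⟩
  have hNewLen : ∀ q, New q → ∃ j, big j ∧ q.length = sc j := by
    rintro q ⟨j, hb, t, ht, rfl⟩
    refine ⟨j, hb, ?_⟩
    rw [wd_length]
    exact (hnw j t hb (hNeed_le j t ht)).1
  -- agreement outside
  have hsame : ∀ q, ¬ Del q → ¬ New q → C' q = C q := by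
    intro q h3 h4
    rw [Bool.eq_iff_iff, hC'iff]
    constructor
    · rintro (h | h)
      · exact h.1
      · exact absurd h h4
    · intro h
      exact Or.inl ⟨h, h3⟩
  have hsame' : ∀ q, (∀ j, q.length = sc j → ¬ big j) → C' q = C q := by
    intro q h
    apply hsame
    · intro hd
      obtain ⟨j, hb, hl⟩ := hDelLen q hd
      exact h j hl hb
    · intro hd
      obtain ⟨j, hb, hl⟩ := hNewLen q hd
      exact h j hl hb
  have hNew_notU : ∀ q, New q → q ∉ U := by
    rintro q ⟨j, hb, t, ht, rfl⟩
    exact (hnw j t hb (hNeed_le j t ht)).2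
  have hagree : ∀ q ∈ U, C' q = C q := by
    intro q hq
    by_cases hd : Del q
    · have h3 : C q = false := by
        rw [hU, List.mem_append] at hq
        rcases hq with hq | hq
        · exact hus q hq (hDelZ q hd)
        · exact hus' q hq (hDelZ q hd)
      rw [h3]
      rw [Bool.eq_false_iff]
      intro h4
      rw [hC'iff] at h4
      rcases h4 with h4 | h4
      · exact h4.2 hd
      · exact hNew_notU q h4 hq
    · apply hsame q hd
      intro h4
      exact hNew_notU q h4 hq
  have hinj : ∀ {j j'}, sc j = sc j' → j = j' := fun h => sc_strictMono.injective h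
  -- the contents of the big scales
  have hkey : ∀ j, big j → ∀ t, HasT C' j t ↔
      ((HasT C j t ∧ ∀ k < c.m, t ≠ 2 + 2 * k) ∨ Need j t) := by
    intro j hb t
    constructor
    · rintro ⟨y, hl, hCy⟩
      rw [hC'iff] at hCy
      rcases hCy with ⟨h3, h4⟩ | h3
      · refine Or.inl ⟨⟨y, hl, h3⟩, fun k hk ht => h4 ⟨j, hb, k, hk, y, by rw [ht], ?_⟩⟩
        rw [wd_length]
        exact hl
      · obtain ⟨j', hb', t', ht', hn⟩ := h3
        obtain ⟨h5, h6⟩ := wd_inj hn
        subst h5
        have h7 := (hnw j' t hb' (hNeed_le j' t ht')).1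
        rw [← h6, hl] at h7
        have h8 := hinj h7
        subst h8
        exact Or.inr ht'
    · rintro (⟨⟨y, hl, hCy⟩, h3⟩ | h3)
      · refine ⟨y, hl, (hC'iff _).2 (Or.inl ⟨hCy, ?_⟩)⟩
        rintro ⟨j', _, k, hk, y', hy', _⟩
        exact h3 k hk (wd_inj hy').1
      · refine ⟨nw j t, (hnw j t hb (hNeed_le j t h3)).1, (hC'iff _).2 (Or.inr ⟨j, hb, t, h3, rfl⟩)⟩
  have hNeed1 : ∀ j, ¬ Need j 1 := by
    rintro j (⟨h1, _⟩ | ⟨k, _, h1, _⟩)
    · omega
    · omega
  have hNeedE : ∀ j i, ¬ Need j (2 + 2 * i) := by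
    rintro j i (⟨h1, _⟩ | ⟨k, _, h1, _⟩)
    · omega
    · omega
  have hNeedO : ∀ j k, Need j (3 + 2 * k) → ∀ i ≤ k + 1, i < c.m ∨ ¬ HasT C j (2 + 2 * i) := by
    rintro j k (⟨h1, _⟩ | ⟨k', _, h1, _, h2⟩)
    · omega
    · have h3 : k' = k := by omega
      subst h3
      exact h2
  have hev : ∀ j, big j → ∀ i, HasT C' j (2 + 2 * i) ↔ (HasT C j (2 + 2 * i) ∧ c.m ≤ i) := by
    intro j hb i
    rw [hkey j hb]
    constructor
    · rintro (⟨h1, h2⟩ | h1)
      · refine ⟨h1, ?_⟩
        by_contra h3
        exact h2 i (by omega) rfl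
      · exact absurd h1 (hNeedE j i)
    · rintro ⟨h1, h2⟩
      refine Or.inl ⟨h1, fun k hk h3 => ?_⟩
      omega
  have hcomp : Comp c C' := by
    refine ⟨fun q hq => ?_, fun j hj => ?_⟩
    · have h3 : C' q = C q := by
        apply hsame'
        intro j hl hb
        have h4 : sc c.J ≤ sc j := sc_strictMono.monotone hb.1
        omega
      rw [h3]
      have h4 : 2 ^ q.length ≤ sB2 z := by
        have h5 : 2 ^ q.length ≤ 2 ^ sc c.J := Nat.pow_le_pow_right (by norm_num) hq.le
        have h6 : z.length ≤ sB2 z := by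
          unfold sB2
          nlinarith
        omega
      exact (hshort q h4).1 hq
    · by_cases hb : big j
      · have hA := hC j
        refine ⟨⟨?_, ?_, ?_, ?_⟩, fun _ k hk h3 => ?_⟩
        · -- disj
          rintro ⟨h0, h1⟩
          rw [hkey j hb] at h0 h1
          have h2 : HasT C j 1 := by
            rcases h1 with h1 | h1
            · exact h1.1
            · exact absurd h1 (hNeed1 j)
          rcases h0 with h0 | h0
          · exact hA.disj ⟨h0.1, h2⟩
          · rcases h0 with ⟨_, _, h3⟩ | ⟨k, _, h3, _⟩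
            · exact h3 h2
            · omega
        · -- some
          by_cases h0 : HasT C j 0
          · exact Or.inl ((hkey j hb 0).2 (Or.inl ⟨h0, fun k _ => by omega⟩))
          · by_cases h1 : HasT C j 1
            · exact Or.inr (Or.inl ((hkey j hb 1).2 (Or.inl ⟨h1, fun k _ => by omega⟩)))
            · exact Or.inl ((hkey j hb 0).2 (Or.inr (Or.inl ⟨rfl, h0, h1⟩)))
        · -- low
          intro k hk h3 i hi h4
          rw [hev j hb] at h4
          rw [hkey j hb] at h3
          rcases h3 with h3 | h3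
          · exact hA.low k hk h3.1 i hi h4.1
          · rcases hNeedO j k h3 i (by omega) with h5 | h5
            · omega
            · exact h5 h4.1
        · -- cert
          intro k hk
          by_cases h3 : HasT C j (3 + 2 * k)
          · exact Or.inl ((hkey j hb _).2 (Or.inl ⟨h3, fun i _ => by omega⟩))
          · by_cases h4 : ∃ i ≤ k + 1, HasT C j (2 + 2 * i) ∧ c.m ≤ i
            · obtain ⟨i, hi, h5⟩ := h4
              exact Or.inr ⟨i, hi, (hev j hb i).2 h5⟩
            · refine Or.inl ((hkey j hb _).2 (Or.inr (Or.inr ⟨k, hk, rfl, h3, fun i hi => ?_⟩)))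
              by_contra h5
              rw [not_or, not_lt, not_not] at h5
              exact h4 ⟨i, hi, h5.2, h5.1⟩
        · rw [hev j hb] at h3
          omega
      · have h3 : ∀ q : List Bool, q.length = sc j → C q = C' q := by
          intro q hq
          refine (hsame' q ?_).symm
          intro j' hl hb'
          rw [hq] at hl
          have := hinj hl
          subst this
          exact hb hb'
        refine ⟨(absOK_congr h3).1 (hC j), fun hf => (prot_congr h3 c.m).1 ?_⟩
        rintro k hk ⟨y, hy, hCy⟩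
        have h4 : 2 ^ sc j ≤ sB2 z := by
          by_contra h5
          exact hb ⟨hj, hf, not_le.1 h5⟩
        have h5 : (wd (2 + 2 * k) y).length = sc j := by
          rw [wd_length]
          exact hy
        have h6 := (hshort (wd (2 + 2 * k) y) (by rw [h5]; exact h4)).2
          ⟨j, hj, hf, k, hk, y, rfl, h5⟩
        rw [hCy] at h6
        exact absurd h6 (by decide)
  refine huniq C' hcomp w w' hw hw' ?_ ?_
  · rw [run_trunc act e.1.1 hQ.2, run_used act e.1.1 (C := C)]
    · exact hrun
    · intro q hq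
      exact hagree q (by rw [hU, List.mem_append]; exact Or.inl hq)
  · rw [run_trunc act e.1.1 hQ'.2, run_used act e.1.1 (C := C)]
    · exact hrun'
    · intro q hq
      exact hagree q (by rw [hU, List.mem_append]; exact Or.inr hq)

end Pool.Agent.PudOpt
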