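import Mathlib
import Pool.Agent.PudOpt.O3a
import Pool.Agent.PudOpt.O3b

set_option autoImplicit false

/-!
# O3: UP has a complete language
-/

namespace Pool.Agent.PudOpt

open N68a2faeb N793a5b8e N487b59b3 Pool.Agent.Helper22 Pool.Agent.PudOr Pool.Agent.PudTal
open scoped Classical

/-- O3: the universal UP language -/
noncomputable def O3_lan (act : Act) (C : Oracle) : DecisionProblem := fun z =>
  decide (∃ w : List Bool, w.length ≤ z.length ∧ PredUP act z w C)

theorem O3_lan_iff (act : Act) (C : Oracle) (z : List Bool) :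
    O3_lan act C z = true ↔ ∃ w : List Bool, w.length ≤ z.length ∧ PredUP act z w C := by
  simp [O3_lan]

/-- O3: the padded instance with number `n` -/
theorem O3_inst (n : ℕ) (qq : Polynomial ℕ) :
    ∃ f : OracleProc (List Bool) (List Bool), ∀ (X : Oracle) (x : List Bool),
      f.run X x = cd (cd (un n) x) (un (qq.eval x.length)) := by
  have h : FP fun x : List Bool => cd (cd (un n) x) (un (qq.eval x.length)) := by
    have h1 : FP fun x : List Bool => un (qq.eval x.length) := FP.un_poly FP.id _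
    fun_prop
  exact ⟨pureProc _ h, fun X x => pureProc_run _ h X x⟩

theorem up_complete {act : Act} (hs : Short act) {D : OracleProc (List Bool) Bool}
    (hD : Drives act D thUP) {C : Oracle} (hC : ∀ j, AbsOK C j)
    (hforce : ∀ e : Ver, (∀ x, Uniq act e x C) →
      ∃ c : Cond, Comp c C ∧ ∀ C', Comp c C' → ∀ x, Uniq act e x C') :
    ∃ U ∈ UPo (Xo act C), ∀ A ∈ UPo (Xo act C), ReducibleRel (Xo act C) A U := by
  obtain ⟨V, hV⟩ := exists_verUP hs hD
  refine ⟨O3_lan act C, ⟨Polynomial.X, V, fun z => ?_, fun z w w' _ _ h h' => ?_⟩, ?_⟩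
  · rw [O3_lan_iff]
    simp only [Accepts, Polynomial.eval_X, hV]
  · exact predUP_unique hs hC z w w' ((hV C z w).1 h) ((hV C z w').1 h')
  · rintro A ⟨p, M, hA, hu⟩
    let e : Ver := (M, p)
    obtain ⟨c, hcC, hc⟩ := hforce e (fun x w w' => hu x w w')
    obtain ⟨n, hn⟩ := enumTF_surj (e, c)
    obtain ⟨q1, h1⟩ := QB_ver e
    obtain ⟨f, hf⟩ := O3_inst n (q1 + Polynomial.C (2 ^ sc c.J))
    refine ⟨f, fun x => ?_⟩
    rw [hf]
    set z := cd (cd (un n) x) (un ((q1 + Polynomial.C (2 ^ sc c.J)).eval x.length)) with hz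
    have hzl : q1.eval x.length + 2 ^ sc c.J ≤ z.length := by
      rw [hz, cd_length, un_length, Polynomial.eval_add, Polynomial.eval_C]
      omega
    have hze : enumTF (cf (cf z)).length = (e, c) := by
      rw [hz, cf_cd, cf_cd, un_length, hn]
    have hzx : cs (cf z) = x := by rw [hz, cf_cd, cs_cd]
    have hQ1 := h1 x z.length (by have := Nat.zero_le (2 ^ sc c.J); omega)
    have hconf : ConfUP act z := by
      unfold ConfUP
      simp only [hze, hzx]
      refine ⟨fun w hw => hQ1 w hw, by omega, ?_⟩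
      intro C' hC' w w' hw hw' hr hr'
      refine hc C' hC' x w w' hw hw' ?_ ?_
      · rw [← hr, run_trunc act e.1 (hQ1 w hw).2]
      · rw [← hr', run_trunc act e.1 (hQ1 w' hw').2]
    have hisz : ∀ q, IsZ c q → C q = false := fun q hq => not_isZ hcC hq
    have key : A x = true ↔ O3_lan act C z = true := by
      rw [hA x, O3_lan_iff]
      constructor
      · rintro ⟨w, hw, hr⟩
        refine ⟨w, (hQ1 w hw).1, ?_⟩
        unfold PredUP
        simp only [hze, hzx]
        exact ⟨hconf, hw, fun q _ => ⟨fun hq => hcC.1 q hq, hisz q⟩, hr, fun q _ => hisz q⟩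
      · rintro ⟨w, -, hw⟩
        unfold PredUP at hw
        simp only [hze, hzx] at hw
        exact ⟨w, hw.2.1, hw.2.2.2.1⟩
    exact Bool.eq_iff_iff.2 key

end Pool.Agent.PudOpt
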