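import Mathlib
import Pool.Agent.PudOpt.O1

set_option autoImplicit false

/-!
# O4a: the procedure of the optimal proof system
-/

namespace Pool.Agent.PudOpt

open N68a2faeb N793a5b8e N487b59b3 Pool.Agent.Helper22 Pool.Agent.PudOr Pool.Agent.PudTal
open scoped Classical

theorem O4_cfs_length_le (s : List Bool) : (cf s).length + (cs s).length ≤ s.length := by
  induction s using cf.induct with
  | case1 b l ih => simp only [cf, cs, List.length_cons]; omega
  | case2 s h =>
    rcases s with _ | ⟨a, _ | ⟨b, l⟩⟩
    · simp [cf, cs]
    · cases a <;> simp [cf, cs]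
    · cases a
      · simp [cf, cs]
      · exact absurd rfl (h b l)

theorem O4_KcP_trunc (act : Act) (z w : List Bool) (C : Oracle) {M : ℕ} (h : z.length ≤ M) :
    KcP (trunc act M) z w C ↔ KcP act z w C := by
  unfold KcP
  constructor
  · rintro ⟨h1, h2, h3⟩
    refine ⟨h1, h2, ?_⟩
    rw [run_trunc act _ (h2.mono h)] at h3
    exact h3
  · rintro ⟨h1, h2, h3⟩
    refine ⟨h1, h2, ?_⟩
    rw [run_trunc act _ (h2.mono h)]
    exact h3

theorem O4_ChkO_trunc (act : Act) (v : List Bool) (C : Oracle) {M : ℕ} (h : v.length ≤ M) :
    ChkO (trunc act M) v C ↔ ChkO act v C := by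
  have h1 := O4_cfs_length_le v
  have h2 := O4_cfs_length_le (cs v)
  have hy : (cf v).length ≤ M := by omega
  have hN : (cs (cs v)).length ≤ M := by omega
  unfold ChkO
  simp only
  refine and_congr_right fun a1 => ?_
  have hr : ∀ C', (enumFC (cf (cf (cf (cs v)))).length).1.run (Xo (trunc act M) C')
      (cs (cf (cf (cs v)))) = (enumFC (cf (cf (cf (cs v)))).length).1.run (Xo act C')
      (cs (cf (cf (cs v)))) := fun C' => run_trunc act _ (a1.mono hN) C'
  have hk : ∀ C' u, KcP (trunc act M) (cf v) u C' ↔ KcP act (cf v) u C' :=
    fun C' u => O4_KcP_trunc act _ u C' hy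
  simp only [hr, hk]

theorem O4_sAns_length (σ : Strat) (C : Oracle) (n : ℕ) : (sAns σ C n).length = n := by
  induction n with
  | zero => rfl
  | succ n ih => rw [sAns, List.length_cons, ih]

theorem O4_sAns_drop (σ : Strat) (C : Oracle) (m k : ℕ) :
    (sAns σ C (m + k)).drop k = sAns σ C m := by
  induction k with
  | zero => rfl
  | succ k ih => rw [← add_assoc, sAns, List.drop_succ_cons, ih]

theorem O4_sAns_le (σ : Strat) {C C' : Oracle} {n m : ℕ} (hm : m ≤ n)
    (h : sAns σ C n = sAns σ C' n) : sAns σ C m = sAns σ C' m := by
  obtain ⟨k, rfl⟩ := Nat.exists_eq_add_of_le hm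
  rw [← O4_sAns_drop σ C m k, ← O4_sAns_drop σ C' m k, h]

/-- the strategy of the optimal proof system -/
noncomputable def O4_strat (act : Act) (f : FN) (w κ : List Bool) (N : ℕ) : Strat := fun ans =>
  if h : ans.length < (shortList N).length then .inr ((shortList N)[ans.length])
    else if ans.length < (shortList N).length + N then
      act (f.query (w, ans.take (ans.length - (shortList N).length)))
    else .inr κ

theorem O4_thO (act : Act) (u v : List Bool) (h : cf u = v) : thO act u =
    (O4_strat act (enumFC (cf (cf (cf (cs v)))).length).1 (cs (cf (cf (cs v)))) (cs (cf (cs v)))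
      (cs (cs v)).length, fun C => decide (ChkO act v C)) := by
  subst h
  rfl

theorem O4_strat_lt {act : Act} {f : FN} {w κ : List Bool} {N : ℕ} {ans : List Bool}
    (h : ans.length < (shortList N).length) :
    O4_strat act f w κ N ans = .inr ((shortList N)[ans.length]) := by
  simp only [O4_strat, dif_pos h]

theorem O4_strat_mid {act : Act} {f : FN} {w κ : List Bool} {N : ℕ} {ans : List Bool}
    (h : ¬ ans.length < (shortList N).length) (h2 : ans.length < (shortList N).length + N) :
    O4_strat act f w κ N ans =
      act (f.query (w, ans.take (ans.length - (shortList N).length))) := by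
  simp only [O4_strat, dif_neg h, if_pos h2]

theorem O4_strat_ge {act : Act} {f : FN} {w κ : List Bool} {N : ℕ} {ans : List Bool}
    (h : ¬ ans.length < (shortList N).length + N) : O4_strat act f w κ N ans = .inr κ := by
  have h1 : ¬ ans.length < (shortList N).length := by omega
  simp only [O4_strat, dif_neg h1, if_neg h]

/-- the strategy, after the list of short words -/
theorem O4_sAns_add (act : Act) (f : FN) (w κ : List Bool) (N : ℕ) (C : Oracle) {k : ℕ}
    (hk : k ≤ N) :
    sAns (O4_strat act f w κ N) C ((shortList N).length + k) =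
      f.answers (Xo act C) w k ++ sAns (O4_strat act f w κ N) C (shortList N).length := by
  induction k with
  | zero => rw [Nat.add_zero, OracleProc.answers, List.nil_append]
  | succ k ih =>
    rw [← Nat.add_assoc, sAns, ih (by omega), OracleProc.answers]
    rw [List.cons_append]
    have hlen := O4_sAns_length (O4_strat act f w κ N) C (shortList N).length
    have hans := OracleProc.answers_length f (Xo act C) w k
    generalize sAns (O4_strat act f w κ N) C (shortList N).length = u at *
    generalize f.answers (Xo act C) w k = t at *
    have h1 : ¬ (t ++ u).length < (shortList N).length := by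
      rw [List.length_append]
      omega
    have h3 : (t ++ u).length < (shortList N).length + N := by
      rw [List.length_append]
      omega
    have h2 : (t ++ u).take ((t ++ u).length - (shortList N).length) = t := by
      rw [List.length_append, hlen, Nat.add_sub_cancel, List.take_left]
    rw [O4_strat_mid h1 h3, h2]
    rfl

theorem O4_short {act : Act} {f : FN} {w κ : List Bool} {N : ℕ} {C C' : Oracle}
    (h : sAns (O4_strat act f w κ N) C' (shortList N).length =
      sAns (O4_strat act f w κ N) C (shortList N).length) :
    ∀ q ∈ shortList N, C' q = C q := by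
  intro q hq
  obtain ⟨n, hn, rfl⟩ := List.getElem_of_mem hq
  have h1 := O4_sAns_le _ (show n + 1 ≤ (shortList N).length by omega) h
  rw [sAns, sAns] at h1
  have h2 := (List.cons.inj h1).1
  have key : ∀ D : Oracle, O4_strat act f w κ N (sAns (O4_strat act f w κ N) D n) =
      .inr ((shortList N)[n]) := by
    intro D
    have h3 := O4_sAns_length (O4_strat act f w κ N) D n
    rw [O4_strat_lt (by rw [h3]; exact hn)]
    simp only [h3]
  rw [key, key] at h2
  exact h2

theorem O4_shortList_length (N : ℕ) : (shortList N).length ≤ 2 * N + 1 := by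
  rcases Nat.eq_zero_or_pos N with rfl | h
  · simp [shortList, words]
  · have := shortList_length N h
    omega

theorem O4_mem_shortList_length {N : ℕ} {q : List Bool} (h : q ∈ shortList N) :
    q.length ≤ N := by
  rcases Nat.eq_zero_or_pos N with rfl | hN
  · simp [shortList, words] at h
    simp [h]
  · rw [mem_shortList hN] at h
    have h4 := Nat.lt_two_pow_self (n := q.length)
    omega

theorem O4_determinacy {act : Act} {v : List Bool} {n : ℕ} {C C' : Oracle}
    (hn : (shortList (cs (cs v)).length).length + (cs (cs v)).length + 1 ≤ n)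
    (h : sAns (O4_strat act (enumFC (cf (cf (cf (cs v)))).length).1 (cs (cf (cf (cs v))))
      (cs (cf (cs v))) (cs (cs v)).length) C' n =
      sAns (O4_strat act (enumFC (cf (cf (cf (cs v)))).length).1 (cs (cf (cf (cs v))))
      (cs (cf (cs v))) (cs (cs v)).length) C n)
    (hP : ChkO act v C) : ChkO act v C' := by
  unfold ChkO at hP ⊢
  simp only at hP ⊢
  obtain ⟨p1, p2, p3, p4, p5, p6, p7, p8⟩ := hP
  set N := (cs (cs v)).length with hN
  set f := (enumFC (cf (cf (cf (cs v)))).length).1 with hf
  set w := cs (cf (cf (cs v))) with hw
  set κ := cs (cf (cs v)) with hκ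
  have hN0 : 0 < N := lt_of_lt_of_le (by positivity) p3
  have h1 := O4_sAns_le _ hn h
  have h2 := O4_sAns_le _ (show (shortList N).length + N ≤ n by omega) h
  have h3 := O4_sAns_le _ (show (shortList N).length ≤ n by omega) h
  have hs := O4_short h3
  rw [O4_sAns_add _ _ _ _ _ _ le_rfl, O4_sAns_add _ _ _ _ _ _ le_rfl] at h2
  have h4 := (List.append_inj h2 (by
    rw [OracleProc.answers_length, OracleProc.answers_length])).1
  have h5 := (used_of_answers act f p1.1 h4).2.2
  rw [sAns, sAns] at h1
  have h6 := (List.cons.inj h1).1
  have key : ∀ D : Oracle, O4_strat act f w κ N (sAns (O4_strat act f w κ N) D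
      ((shortList N).length + N)) = .inr κ := by
    intro D
    rw [O4_strat_ge]
    rw [O4_sAns_length]
    omega
  rw [key, key] at h6
  have h7 : C' κ = C κ := h6
  refine ⟨p1, p2, p3, p4, p5, fun q hq => ?_, ?_, h5.trans p8⟩
  · rw [hs q ((mem_shortList hN0).2 hq)]
    exact p6 q hq
  · rw [h7]
    exact p7

theorem chkO_run {act : Act} (hs : Short act) {D : OracleProc (List Bool) Bool}
    (hD : Drives act D thO) (C : Oracle) (v : List Bool) :
    D.run (Xo act C) (cd v (un (8 * (v.length + 1)))) = true ↔ ChkO act v C := by
  set u := cd v (un (8 * (v.length + 1))) with hu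
  have hul : u.length = 2 * v.length + 1 + 8 * (v.length + 1) := by
    rw [hu, cd_length, un_length]
  have hcf : cf u = v := by rw [hu, cf_cd]
  have l1 := O4_cfs_length_le v
  have l2 := O4_cfs_length_le (cs v)
  have l3 := O4_cfs_length_le (cf (cs v))
  have hL := O4_shortList_length (cs (cs v)).length
  have h := hD C u (by
    intro ans q h
    rw [O4_thO _ u v hcf] at h
    simp only at h
    by_cases h1 : ans.length < (shortList (cs (cs v)).length).length
    · rw [O4_strat_lt h1] at h
      have h3 : q ∈ shortList (cs (cs v)).length := by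
        rw [← Sum.inr.inj h]
        exact List.getElem_mem h1
      have h4 := O4_mem_shortList_length h3
      omega
    · by_cases h2 : ans.length < (shortList (cs (cs v)).length).length + (cs (cs v)).length
      · rw [O4_strat_mid h1 h2, trunc] at h
        split_ifs at h with h5
        exact (hs _ _ h).trans h5.le
      · rw [O4_strat_ge h2, Sum.inr.injEq] at h
        rw [← h]
        omega) (by
    intro C' h
    rw [O4_thO _ u v hcf] at h ⊢
    simp only at h ⊢
    refine decide_eq_decide.2 ⟨O4_determinacy (by omega) h.symm, O4_determinacy (by omega) h⟩)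
  rw [h, O4_thO _ u v hcf]
  simp only [decide_eq_true_eq]
  exact O4_ChkO_trunc act v C (by omega)

end Pool.Agent.PudOpt
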