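import Mathlib
import Pool.Agent.PudOpt.O4a
import Pool.Agent.PudTal.T3
import Pool.Agent.PudTal.T4

set_option autoImplicit false

/-!
# O4: the optimal proof system
-/

namespace Pool.Agent.PudOpt

open N68a2faeb N793a5b8e N487b59b3 Pool.Agent.Helper22 Pool.Agent.PudOr Pool.Agent.PudTal
open scoped Classical

/-- the complete language is local -/
theorem O4_KcP_local {act : Act} (hs : Short act) (z u : List Bool) {C C' : Oracle} {N : ℕ}
    (hz : z.length ≤ N) (hC : Agree N C' C) (h : KcP act z u C) : KcP act z u C' := by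
  obtain ⟨h1, h2, h3⟩ := h
  refine ⟨h1, h2, ?_⟩
  have hag : Agree z.length C' C := fun q hq => hC q (hq.trans hz)
  rw [run_local hs _ h2 hag]
  exact h3

/-- soundness -/
theorem chkO_sound {act : Act} (hs : Short act) {C : Oracle} (hC : ∀ j, AbsOK C j)
    (v : List Bool) (h : ChkO act v C) : Kc act C (cf v) = false := by
  unfold ChkO at h
  simp only at h
  set y := cf v with hy
  set e := enumFC (cf (cf (cf (cs v)))).length with he
  set w := cs (cf (cf (cs v))) with hw
  set κ := cs (cf (cs v)) with hκ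
  set N := (cs (cs v)).length with hN
  obtain ⟨b1, b2, b3, b4, b5, b6, b7, b8⟩ := h
  by_contra hcon
  rw [Bool.not_eq_false] at hcon
  obtain ⟨u, hu⟩ : ∃ u, KcP act y u C := of_decide_eq_true hcon
  have hag := cut_agree C N
  have hcomp : Comp e.2 (cut C N) := by
    refine cut_comp hC ((Nat.lt_two_pow_self).le.trans b3) (fun q hq => ?_) (fun q hq hCq hz => ?_)
    · refine (b6 q ?_).1 hq
      exact (Nat.pow_le_pow_right (by norm_num) hq.le).trans b3
    · by_cases hq2 : 2 ^ q.length ≤ N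
      · have := (b6 q hq2).2 hz
        rw [hCq] at this
        exact absurd this (by simp)
      · obtain ⟨j, hj1, hj2, k, hk, y0, hq0, hql⟩ := hz
        rw [hql] at hq hq2
        obtain ⟨y', hk1, hk2, hk3⟩ := b7 j hj1 hj2 (not_le.1 hq2) hq
        have hm : 1 ≤ e.2.m := by omega
        have hT : HasT C j (3 + 2 * (e.2.m - 1)) := by
          refine ⟨y', ?_, ?_⟩
          · rw [hk1, wd_length] at hk2
            omega
          · rw [hk1] at hk3
            rw [show 3 + 2 * (e.2.m - 1) = 2 * e.2.m + 1 by omega]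
            exact hk3
        refine (hC j).low (e.2.m - 1) (by omega) hT k (by omega) ⟨y0, ?_, ?_⟩
        · rw [hq0, wd_length] at hql
          omega
        · rw [← hq0]
          exact hCq
  refine b5 _ hcomp ?_ ⟨u, O4_KcP_local hs y u b2 hag hu⟩
  rw [run_local hs _ b1 hag]
  exact b8

/-- at most one scale is in the window -/
theorem O4_window {j j' N : ℕ} (h1 : N < 2 ^ sc j) (h2 : sc j' ≤ N) : j' ≤ j := by
  by_contra hcon
  have h3 : sc (j + 1) ≤ sc j' := sc_strictMono.monotone (by omega)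
  have h4 : sc (j + 1) = 2 ^ (sc j + 2) := rfl
  have h5 : 2 ^ sc j ≤ 2 ^ (sc j + 2) := Nat.pow_le_pow_right (by norm_num) (by omega)
  omega

/-- every function with values outside `Kc` is simulated with polynomial length increase -/
theorem chkO_sim {act : Act} (hs : Short act) {C : Oracle} (hC : ∀ j, AbsOK C j)
    {c c' : Cond} (hc : Comp c C) (hc' : Comp c' C) (hcJ : c.m ≤ c.J) (hm : c.m + 1 ≤ c'.m)
    (g : FN) (hg : ∀ C', Comp c C' → ∀ w, PSnd act g w C') :
    ∃ p : Polynomial ℕ, ∀ w, ∃ v : List Bool, v.length ≤ p.eval w.length ∧ ChkO act v C ∧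
      cf v = g.run (Xo act C) w := by
  obtain ⟨n, hn⟩ := enumFC_surj (g, c)
  obtain ⟨q1, hq1⟩ := QB_word g
  obtain ⟨qo, hqo⟩ := out_bound g
  obtain ⟨K, hK1, hK2⟩ : ∃ K : ℕ, 2 ^ sc c.J ≤ K ∧ 2 ^ sc c'.J ≤ K :=
    ⟨2 ^ sc c.J + 2 ^ sc c'.J, Nat.le_add_right _ _, Nat.le_add_left _ _⟩
  obtain ⟨r, hr⟩ : ∃ r : Polynomial ℕ, r = q1 + qo + Polynomial.C K := ⟨_, rfl⟩
  refine ⟨2 * qo + 1 + (2 * (2 * (2 * Polynomial.C n + 1 + Polynomial.X) + 1 + r) + 1 + r),
    fun w => ?_⟩
  have hre : r.eval w.length = q1.eval w.length + qo.eval w.length + K := by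
    rw [hr]; simp
  obtain ⟨N, hN⟩ : ∃ N, N = r.eval w.length := ⟨_, rfl⟩
  rw [← hN] at hre
  set y := g.run (Xo act C) w with hy
  have hQ : QB g w N := hq1 w N (by omega)
  have hyl : y.length ≤ qo.eval w.length := hqo _ w
  have hκ : ∃ κ : List Bool, κ.length ≤ N ∧ ∀ j, c.J ≤ j → fam j < c.m → N < 2 ^ sc j →
      sc j ≤ N → ∃ y', κ = wd (2 * c.m + 1) y' ∧ κ.length = sc j ∧ C κ = true := by
    by_cases hex : ∃ j, c.J ≤ j ∧ fam j < c.m ∧ N < 2 ^ sc j ∧ sc j ≤ N
    · obtain ⟨j, hj1, hj2, hj3, hj4⟩ := hex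
      have hj5 : c'.J < j := by
        have h1 : 2 ^ sc c'.J < 2 ^ sc j := by omega
        have h2 : sc c'.J < sc j := (Nat.pow_lt_pow_iff_right (by norm_num)).1 h1
        exact sc_strictMono.lt_iff_lt.1 h2
      obtain ⟨hA, hP⟩ := hc'.2 j hj5.le
      have hP' := hP (by omega)
      have hT : HasT C j (2 * c.m + 1) := by
        rcases hA.cert (c.m - 1) (by omega) with h1 | ⟨i, hi, h2⟩
        · rwa [show 3 + 2 * (c.m - 1) = 2 * c.m + 1 by omega] at h1
        · exact absurd h2 (hP' i (by omega))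
      obtain ⟨y', hy1, hy2⟩ := hT
      have hlen : (wd (2 * c.m + 1) y').length = sc j := by
        rw [wd_length]; omega
      refine ⟨wd (2 * c.m + 1) y', by omega, fun j' _ _ h3 h4 => ?_⟩
      have hjj : j' = j := le_antisymm (O4_window hj3 h4) (O4_window h3 hj4)
      subst hjj
      exact ⟨y', rfl, hlen, hy2⟩
    · refine ⟨[], by simp, fun j h1 h2 h3 h4 => ?_⟩
      exact absurd ⟨j, h1, h2, h3, h4⟩ hex
  obtain ⟨κ, hκl, hκ⟩ := hκ
  refine ⟨cd y (cd (cd (cd (un n) w) κ) (un N)), ?_, ?_, by rw [cf_cd]⟩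
  · simp only [cd_length, un_length, Polynomial.eval_add, Polynomial.eval_mul,
      Polynomial.eval_C, Polynomial.eval_X, Polynomial.eval_one, Polynomial.eval_ofNat, ← hN]
    omega
  · unfold ChkO
    simp only [cf_cd, cs_cd, un_length, hn]
    refine ⟨hQ, by omega, by omega, hcJ, fun C' hC' h1 h2 => ?_, fun q hq => ⟨hc.1 q, fun hz =>
      not_isZ hc hz⟩, hκ, rfl⟩
    have h3 := hg C' hC' w
    unfold PSnd at h3
    rw [h1] at h3
    exact h3 h2

theorem optimal {act : Act} (hs : Short act) {D : OracleProc (List Bool) Bool}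
    (hD : Drives act D thO) {C : Oracle} (hC : ∀ j, AbsOK C j)
    (hforce : ∀ g : FN, (∀ w, PSnd act g w C) →
      ∃ c c' : Cond, Comp c C ∧ Comp c' C ∧ c.m ≤ c.J ∧ c.m + 1 ≤ c'.m ∧
        ∀ C', Comp c C' → ∀ w, PSnd act g w C') :
    ∃ h, IsOptimalRel (Xo act C) (Kc act C)ᶜ h := by
  obtain ⟨h, hh⟩ := T4_exists_h D
  have hsim : ∀ g : FN, (∀ w, Kc act C (g.run (Xo act C) w) = false) →
      ∃ p : Polynomial ℕ, ∀ w, ∃ w' : List Bool, w'.length ≤ p.eval w.length ∧
        h.run (Xo act C) w' = g.run (Xo act C) w := by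
    intro g hg
    have hP : ∀ w, PSnd act g w C := fun w => of_decide_eq_false (hg w)
    obtain ⟨c, c', h1, h2, h3, h4, h5⟩ := hforce g hP
    obtain ⟨p, hp⟩ := chkO_sim hs hC h1 h2 h3 h4 g h5
    refine ⟨p, fun w => ?_⟩
    obtain ⟨v, hv1, hv2, hv3⟩ := hp w
    refine ⟨v, hv1, ?_⟩
    rw [hh, if_pos ((chkO_run hs hD C v).2 hv2), hv3]
  refine ⟨h, ⟨fun y => ⟨fun hy => ?_, ?_⟩, fun g hg => hsim g fun w => ?_⟩⟩
  · have hy' : Kc act C y = false := by simpa using hy
    obtain ⟨p, hp⟩ := hsim (pureProc (fun _ => y) (FP.const _)) (by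
      intro w
      rw [pureProc_run]
      exact hy')
    obtain ⟨w', _, hw'⟩ := hp []
    exact ⟨w', by rw [hw', pureProc_run]⟩
  · rintro ⟨v, hv⟩
    rw [hh] at hv
    have hgoal : Kc act C y = false := by
      by_cases h1 : D.run (Xo act C) (cd v (un (8 * (v.length + 1)))) = true
      · rw [if_pos h1] at hv
        rw [← hv]
        exact chkO_sound hs hC v ((chkO_run hs hD C v).1 h1)
      · rw [if_neg h1] at hv
        rw [← hv]
        exact Kc_nil act C
    simpa using hgoal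
  · have h1 := (hg (g.run (Xo act C) w)).2 ⟨w, rfl⟩
    simpa using h1

end Pool.Agent.PudOpt
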