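import Mathlib
import Pool.Agent.PudOpt.O1

set_option autoImplicit false

/-!
# O5: the languages `tl i J₀` are in NP ∩ coNP; locality of the statements
-/

namespace Pool.Agent.PudOpt

open N68a2faeb N793a5b8e N487b59b3 Pool.Agent.Helper22 Pool.Agent.PudOr Pool.Agent.PudTal
open scoped Classical

/-- the procedure `D b` computes the predicate of `thT` on pairs -/
theorem O5_run {act : Act} {i J₀ : ℕ} {b : Bool} {D : OracleProc (List Bool) Bool}
    (hD : Drives act D (thT i J₀ b)) (C : Oracle) (x w : List Bool) :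
    D.run (Xo act C) (cd x w) =
      if (∃ j, J₀ ≤ j ∧ fam j = i ∧ x.length = sc j) then
        decide (w.length + (if b then 1 else 0) + 1 = x.length) &&
          C (wd (if b then 1 else 0) w) else !b := by
  have h := hD C (cd x w) ?_ ?_
  · rw [h]
    simp only [thT, cf_cd, cs_cd]
  · intro ans q hq
    simp only [thT, cs_cd] at hq
    split_ifs at hq with h1 h2
    · cases hq
      simp only [wd_length]
      omega
    · cases hq
      simp only [wd_length]
      omega
  · intro C' hC'
    simp only [thT, cf_cd, cs_cd] at hC' ⊢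
    by_cases hc : ∃ j, J₀ ≤ j ∧ fam j = i ∧ x.length = sc j
    · rw [if_pos hc, if_pos hc]
      by_cases hw : w.length + (if b then 1 else 0) + 1 = x.length
      · have hlen : w.length + 2 ≤ (cd x w).length := by
          rw [cd_length]
          omega
        simp only [if_pos hlen] at hC'
        obtain ⟨n, hn⟩ : ∃ n, (cd x w).length = n + 1 := ⟨(cd x w).length - 1, by omega⟩
        rw [hn, sAns, sAns] at hC'
        have h1 := (List.cons.inj hC').1
        simp only [look] at h1
        rw [h1]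
      · have hd : decide (w.length + (if b then 1 else 0) + 1 = x.length) = false :=
          decide_eq_false hw
        rw [hd, Bool.false_and, Bool.false_and]
    · rw [if_neg hc, if_neg hc]

theorem tl_mem {act : Act} {i J₀ : ℕ} {D : Bool → OracleProc (List Bool) Bool}
    (hD : ∀ b, Drives act (D b) (thT i J₀ b)) {C : Oracle}
    (hC : ∀ j, J₀ ≤ j → fam j = i → AbsOK C j ∧ Prot 1 C j) :
    tl i J₀ C ∈ NPo (Xo act C) ∩ coNPo (Xo act C) := by
  have hcd : FP fun a : List Bool × List Bool => cd a.1 a.2 := by fun_prop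
  constructor
  · refine ⟨Polynomial.X, comap (D true) _ hcd, fun x => ?_⟩
    unfold Accepts
    simp only [comap_run, O5_run (hD true), Polynomial.eval_X]
    constructor
    · intro h
      obtain ⟨j, hj1, hj2, hj3, y, hy, hCy⟩ := of_decide_eq_true h
      refine ⟨y, by omega, ?_⟩
      rw [if_pos ⟨j, hj1, hj2, hj3⟩, if_pos trivial, hCy, Bool.and_true, decide_eq_true_eq]
      omega
    · rintro ⟨w, hw, hw2⟩
      split_ifs at hw2 with hc
      · obtain ⟨j, hj1, hj2, hj3⟩ := hc
        rw [Bool.and_eq_true, decide_eq_true_eq] at hw2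
        exact decide_eq_true ⟨j, hj1, hj2, hj3, w, by omega, hw2.2⟩
      · simp at hw2
  · change (tl i J₀ C)ᶜ ∈ NPo (Xo act C)
    refine ⟨Polynomial.X, comap (D false) _ hcd, fun x => ?_⟩
    have hcompl : (tl i J₀ C)ᶜ x = true ↔ ¬ (tl i J₀ C x = true) := by
      change (!(tl i J₀ C x)) = true ↔ _
      cases tl i J₀ C x <;> simp
    rw [hcompl]
    unfold Accepts
    simp only [comap_run, O5_run (hD false), Polynomial.eval_X]
    constructor
    · intro h
      by_cases hc : ∃ j, J₀ ≤ j ∧ fam j = i ∧ x.length = sc j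
      · obtain ⟨j, hj1, hj2, hj3⟩ := hc
        obtain ⟨hA, hP⟩ := hC j hj1 hj2
        rcases hA.some with ⟨y, hy, hCy⟩ | ht | ht
        · refine ⟨y, by omega, ?_⟩
          rw [if_pos ⟨j, hj1, hj2, hj3⟩, if_neg (by simp), hCy, Bool.and_true,
            decide_eq_true_eq]
          omega
        · exact absurd (decide_eq_true ⟨j, hj1, hj2, hj3, ht⟩) h
        · exact absurd ht (hP 0 (by omega))
      · refine ⟨[], by simp, ?_⟩
        rw [if_neg hc]
        rfl
    · rintro ⟨w, hw, hw2⟩ h
      obtain ⟨j, hj1, hj2, hj3, ht⟩ := of_decide_eq_true h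
      rw [if_pos ⟨j, hj1, hj2, hj3⟩, if_neg (by simp), Bool.and_eq_true,
        decide_eq_true_eq] at hw2
      exact (hC j hj1 hj2).1.disj ⟨⟨w, by omega, hw2.2⟩, ht⟩

theorem O5_hasT_local {C C' : Oracle} {n j : ℕ} (h : Agree n C C') (hj : sc j ≤ n) (t : ℕ) :
    HasT C j t ↔ HasT C' j t :=
  hasT_congr (fun q hq => h q (by omega)) t

theorem O5_tl_local (i J₀ : ℕ) (x : List Bool) {C C' : Oracle} (h : Agree x.length C C') :
    tl i J₀ C x = tl i J₀ C' x := by
  unfold tl
  rw [decide_eq_decide]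
  constructor
  · rintro ⟨j, hj1, hj2, hj3, ht⟩
    exact ⟨j, hj1, hj2, hj3, (O5_hasT_local h (by omega) 1).1 ht⟩
  · rintro ⟨j, hj1, hj2, hj3, ht⟩
    exact ⟨j, hj1, hj2, hj3, (O5_hasT_local h (by omega) 1).2 ht⟩

theorem uniq_local {act : Act} (hs : Short act) (e : Ver) (x : List Bool) :
    ∃ n, ∀ C C', Agree n C C' → (Uniq act e x C ↔ Uniq act e x C') := by
  obtain ⟨q, hq⟩ := QB_ver e
  refine ⟨q.eval x.length, fun C C' h => ?_⟩
  have h1 : ∀ w : List Bool, w.length ≤ e.2.eval x.length →
      e.1.run (Xo act C) (x, w) = e.1.run (Xo act C') (x, w) :=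
    fun w hw => run_local hs e.1 (hq x _ le_rfl w hw).2 h
  constructor
  · intro hu w w' hw hw' hr hr'
    exact hu w w' hw hw' (by rw [h1 w hw]; exact hr) (by rw [h1 w' hw']; exact hr')
  · intro hu w w' hw hw' hr hr'
    exact hu w w' hw hw' (by rw [← h1 w hw]; exact hr) (by rw [← h1 w' hw']; exact hr')

theorem O5_KcP_local {act : Act} (hs : Short act) (z u : List Bool) {C C' : Oracle}
    (h : Agree z.length C C') : KcP act z u C ↔ KcP act z u C' := by
  unfold KcP
  constructor
  · rintro ⟨h1, h2, h3⟩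
    exact ⟨h1, h2, by rw [← run_local hs _ h2 h]; exact h3⟩
  · rintro ⟨h1, h2, h3⟩
    exact ⟨h1, h2, by rw [run_local hs _ h2 h]; exact h3⟩

theorem snd_local {act : Act} (hs : Short act) (g : FN) (w : List Bool) :
    ∃ n, ∀ C C', Agree n C C' → (PSnd act g w C ↔ PSnd act g w C') := by
  obtain ⟨qf, hf⟩ := QB_word g
  obtain ⟨qo, ho⟩ := out_bound g
  refine ⟨qf.eval w.length + qo.eval w.length, fun C C' h => ?_⟩
  have e1 : g.run (Xo act C) w = g.run (Xo act C') w :=
    run_local hs g (hf w _ le_rfl) (A2_Agree.mono (by omega) h)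
  have e2 : (g.run (Xo act C') w).length ≤ qo.eval w.length := ho _ w
  unfold PSnd
  rw [e1]
  have e3 : ∀ u, KcP act (g.run (Xo act C') w) u C ↔ KcP act (g.run (Xo act C') w) u C' :=
    fun u => O5_KcP_local hs _ u (A2_Agree.mono (by omega) h)
  simp only [e3]

theorem good_local {act : Act} (hs : Short act) (e : Ver × Ver) (x : List Bool) :
    ∃ n, ∀ C C', Agree n C C' → (PGood act e x C ↔ PGood act e x C') := by
  obtain ⟨q, hq⟩ := acc_local hs e.1
  obtain ⟨q', hq'⟩ := acc_local hs e.2
  refine ⟨max (q.eval x.length) (q'.eval x.length), fun C C' h => ?_⟩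
  have h1 := hq x C C' (A2_Agree.mono (le_max_left _ _) h)
  have h2 := hq' x C C' (A2_Agree.mono (le_max_right _ _) h)
  unfold PGood
  rw [h1, h2]

theorem red_local {act : Act} (hs : Short act) (f : FN) (i J₀ : ℕ) (e : Ver × Ver)
    (x : List Bool) : ∃ n, ∀ C C', Agree n C C' →
      (PRed act f i J₀ e x C ↔ PRed act f i J₀ e x C') := by
  obtain ⟨q1, h1⟩ := acc_local hs e.1
  obtain ⟨q2, h2⟩ := acc_local hs e.2
  obtain ⟨qf, hf⟩ := QB_word f
  obtain ⟨qo, ho⟩ := out_bound f
  refine ⟨q1.eval (qo.eval x.length) + q2.eval (qo.eval x.length) + qf.eval x.length + x.length,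
    ?_⟩
  intro C C' h
  have e1 : f.run (Xo act C) x = f.run (Xo act C') x :=
    run_local hs f (hf x _ le_rfl) (A2_Agree.mono (by omega) h)
  have e2 : tl i J₀ C x = tl i J₀ C' x := O5_tl_local i J₀ x (A2_Agree.mono (by omega) h)
  have e3 : (f.run (Xo act C') x).length ≤ qo.eval x.length := ho _ x
  have m1 : q1.eval (f.run (Xo act C') x).length ≤ q1.eval (qo.eval x.length) := poly_mono q1 e3
  have m2 : q2.eval (f.run (Xo act C') x).length ≤ q2.eval (qo.eval x.length) := poly_mono q2 e3
  have e4 := h1 (f.run (Xo act C') x) C C' (A2_Agree.mono (by omega) h)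
  have e5 := h2 (f.run (Xo act C') x) C C' (A2_Agree.mono (by omega) h)
  unfold PRed
  rw [e1, e2, e4, e5]

end Pool.Agent.PudOpt
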