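import Mathlib

set_option autoImplicit false

/-!
# O6: avoiding many small sets at once
-/

namespace Pool.Agent.PudOpt

open Classical in
private theorem O6_count {α : Type} [Fintype α] [DecidableEq α] (T k : ℕ) (t : Fin T)
    (b : (Fin T → α) → Prop)
    (hb : ∀ ω : Fin T → α, ∃ l : List α, l.length ≤ k ∧ ∀ a, b (Function.update ω t a) → a ∈ l) :
    (Finset.univ.filter b).card * Fintype.card α ≤ Fintype.card (Fin T → α) * k := by
  have hinv : Function.Involutive
      (fun x : (Fin T → α) × α => ((Function.update x.1 t x.2, x.1 t) : (Fin T → α) × α)) := by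
    rintro ⟨ω, a⟩
    simp
  have h1 : ∑ x : (Fin T → α) × α, (if b x.1 then 1 else 0) =
      (Finset.univ.filter b).card * Fintype.card α := by
    rw [Fintype.sum_prod_type, Finset.card_filter, Finset.sum_mul]
    refine Finset.sum_congr rfl fun ω _ => ?_
    by_cases h : b ω
    · simp [h]
    · simp [h]
  have h2 : ∑ x : (Fin T → α) × α, (if b (Function.update x.1 t x.2) then 1 else 0) =
      ∑ x : (Fin T → α) × α, (if b x.1 then 1 else 0) :=
    Equiv.sum_comp hinv.toPerm (fun x : (Fin T → α) × α => if b x.1 then 1 else 0)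
  rw [← h1, ← h2, Fintype.sum_prod_type]
  calc ∑ ω : Fin T → α, ∑ a : α, (if b (Function.update ω t a) then 1 else 0)
      ≤ ∑ _ω : Fin T → α, k := by
        refine Finset.sum_le_sum fun ω _ => ?_
        obtain ⟨l, hl, h⟩ := hb ω
        rw [← Finset.card_filter]
        refine le_trans (Finset.card_le_card (t := l.toFinset) ?_)
          (le_trans (List.toFinset_card_le l) hl)
        intro a ha
        rw [Finset.mem_filter] at ha
        exact List.mem_toFinset.2 (h a ha.2)
    _ = Fintype.card (Fin T → α) * k := by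
        rw [Finset.sum_const, Finset.card_univ, smul_eq_mul]

/-- If `bad a t ω` holds for at most `k` values of the coordinate `t` of `ω` (the other
coordinates fixed), then some `ω` is good for all pairs `(a, t)` of a set of fewer than
`card α / k` pairs. -/
theorem avoidAll {α ι : Type} [Fintype α] [DecidableEq α] (T k : ℕ) (A : Finset (ι × Fin T))
    (bad : ι → Fin T → (Fin T → α) → Prop)
    (hbad : ∀ p ∈ A, ∀ ω : Fin T → α, ∃ l : List α, l.length ≤ k ∧
      ∀ a, bad p.1 p.2 (Function.update ω p.2 a) → a ∈ l)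
    (hk : A.card * k < Fintype.card α) :
    ∃ ω : Fin T → α, ∀ p ∈ A, ¬ bad p.1 p.2 ω := by
  classical
  by_contra hcon
  push Not at hcon
  have hα : 0 < Fintype.card α := lt_of_le_of_lt (Nat.zero_le _) hk
  have : Nonempty α := Fintype.card_pos_iff.1 hα
  have hΩ : 0 < Fintype.card (Fin T → α) := Fintype.card_pos
  have hcov : (Finset.univ : Finset (Fin T → α)) ⊆
      A.biUnion fun p => Finset.univ.filter fun ω => bad p.1 p.2 ω := by
    intro ω _
    obtain ⟨p, hp, hb⟩ := hcon ω
    rw [Finset.mem_biUnion]
    exact ⟨p, hp, Finset.mem_filter.2 ⟨Finset.mem_univ _, hb⟩⟩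
  have h1 : Fintype.card (Fin T → α) ≤
      ∑ p ∈ A, (Finset.univ.filter fun ω => bad p.1 p.2 ω).card := by
    rw [← Finset.card_univ]
    exact le_trans (Finset.card_le_card hcov) Finset.card_biUnion_le
  have h2 : Fintype.card (Fin T → α) * Fintype.card α ≤
      Fintype.card (Fin T → α) * (A.card * k) := by
    calc Fintype.card (Fin T → α) * Fintype.card α
        ≤ (∑ p ∈ A, (Finset.univ.filter fun ω => bad p.1 p.2 ω).card) * Fintype.card α :=
          Nat.mul_le_mul_right _ h1
      _ = ∑ p ∈ A, (Finset.univ.filter fun ω => bad p.1 p.2 ω).card * Fintype.card α := by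
          rw [Finset.sum_mul]
      _ ≤ ∑ _p ∈ A, Fintype.card (Fin T → α) * k :=
          Finset.sum_le_sum fun p hp => O6_count T k p.2 (bad p.1 p.2) (hbad p hp)
      _ = Fintype.card (Fin T → α) * (A.card * k) := by
          rw [Finset.sum_const, smul_eq_mul]; ring
  exact absurd (Nat.le_of_mul_le_mul_left h2 hΩ) (not_le.2 hk)

end Pool.Agent.PudOpt
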