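import Mathlib
import Pool.Agent.PudOpt.O1
import Pool.Agent.PudOpt.O6
import Pool.Agent.PudOr.A6b

set_option autoImplicit false

/-!
# O7: the clash
-/

namespace Pool.Agent.PudOpt

open N68a2faeb N793a5b8e N487b59b3 Pool.Agent.Helper22 Pool.Agent.PudOr Pool.Agent.PudTal
open scoped Classical

/-- the types in the chain of contents: the value `b`, the certificates of levels `< s - 1` and the
violation of level `s` -/
def DT (b : Bool) (s : ℕ) : Set ℕ :=
  {t | t = (if b then 1 else 0) ∨ (∃ k, k + 1 < s ∧ t = 3 + 2 * k) ∨ t = 2 + 2 * s}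

/-- contents given by the types in `S` and the words `ω t` -/
noncomputable def put (C₀ : Oracle) (j : ℕ) (S : Set ℕ) (ω : ℕ → List Bool) : Oracle := fun q =>
  if q.length = sc j then decide (∃ t ∈ S, q = wd t (ω t)) else C₀ q

theorem put_hasT {C₀ : Oracle} {j : ℕ} {S : Set ℕ} {ω : ℕ → List Bool}
    (hω : ∀ t ∈ S, (ω t).length + t + 1 = sc j) (t : ℕ) : HasT (put C₀ j S ω) j t ↔ t ∈ S := by
  constructor
  · rintro ⟨y, hy, hC⟩
    unfold put at hC
    rw [if_pos (by rw [wd_length]; exact hy), decide_eq_true_eq] at hC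
    obtain ⟨t', ht', h⟩ := hC
    obtain ⟨rfl, -⟩ := wd_inj h
    exact ht'
  · intro ht
    refine ⟨ω t, hω t ht, ?_⟩
    unfold put
    rw [if_pos (by rw [wd_length]; exact hω t ht), decide_eq_true_eq]
    exact ⟨t, ht, rfl⟩

/-- contents `DT b s` are allowed, also with the violation of level `s - 1` added; so is the
violation of level `0` alone -/
theorem absOK_of_types {C : Oracle} {j : ℕ} {S : Set ℕ} (hS : ∀ t, HasT C j t ↔ t ∈ S) {s : ℕ}
    {b : Bool} (h : S = DT b s ∨ (1 ≤ s ∧ S = DT b s ∪ {2 + 2 * (s - 1)}) ∨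
      S = {2}) : AbsOK C j := by
  have hv : (if b then 1 else 0 : ℕ) = 0 ∨ (if b then 1 else 0 : ℕ) = 1 := by
    cases b <;> simp
  rcases h with rfl | ⟨hs, rfl⟩ | rfl
  · refine ⟨?_, ?_, ?_, ?_⟩
    · rw [hS, hS]
      simp only [DT, Set.mem_ofPred_eq]
      rintro ⟨h1 | ⟨k, _, h1⟩ | h1, h2 | ⟨k', _, h2⟩ | h2⟩ <;> omega
    · rw [hS, hS, hS]
      simp only [DT, Set.mem_ofPred_eq]
      rcases hv with hv | hv
      · left; left; exact hv.symm
      · right; left; left; exact hv.symm
    · intro k hk h1 i hi h2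
      rw [hS] at h1 h2
      simp only [DT, Set.mem_ofPred_eq] at h1 h2
      rcases h1 with h1 | ⟨k', hk', h1⟩ | h1
      · omega
      · rcases h2 with h2 | ⟨k'', _, h2⟩ | h2 <;> omega
      · omega
    · intro k hk
      by_cases h1 : k + 1 < s
      · left
        rw [hS]
        exact Or.inr (Or.inl ⟨k, h1, rfl⟩)
      · right
        refine ⟨s, by omega, ?_⟩
        rw [hS]
        exact Or.inr (Or.inr rfl)
  · refine ⟨?_, ?_, ?_, ?_⟩
    · rw [hS, hS]
      simp only [DT, Set.mem_ofPred_eq, Set.mem_union, Set.mem_singleton_iff]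
      rintro ⟨(h1 | ⟨k, _, h1⟩ | h1) | h1, (h2 | ⟨k', _, h2⟩ | h2) | h2⟩ <;> omega
    · rw [hS, hS, hS]
      simp only [DT, Set.mem_ofPred_eq, Set.mem_union, Set.mem_singleton_iff]
      rcases hv with hv | hv
      · left; left; left; exact hv.symm
      · right; left; left; left; exact hv.symm
    · intro k hk h1 i hi h2
      rw [hS] at h1 h2
      simp only [DT, Set.mem_ofPred_eq, Set.mem_union, Set.mem_singleton_iff] at h1 h2
      rcases h1 with (h1 | ⟨k', hk', h1⟩ | h1) | h1
      · omega
      · rcases h2 with (h2 | ⟨k'', _, h2⟩ | h2) | h2 <;> omega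
      · omega
      · omega
    · intro k hk
      by_cases h1 : k + 1 < s
      · left
        rw [hS]
        exact Or.inl (Or.inr (Or.inl ⟨k, h1, rfl⟩))
      · right
        refine ⟨s, by omega, ?_⟩
        rw [hS]
        exact Or.inl (Or.inr (Or.inr rfl))
  · refine ⟨?_, ?_, ?_, ?_⟩
    · rw [hS, hS]
      simp
    · rw [hS, hS, hS]
      simp
    · intro k hk h1
      rw [hS] at h1
      simp only [Set.mem_singleton_iff] at h1
      omega
    · intro k hk
      right
      refine ⟨0, by omega, ?_⟩
      rw [hS]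
      simp

theorem O7_ne {C₀ : Oracle} {j : ℕ} {S : Set ℕ} {ω : ℕ → List Bool} {q : List Bool}
    (h : q.length ≠ sc j) : put C₀ j S ω q = C₀ q := if_neg h

/-- compatibility of the changed oracle -/
theorem O7_comp {c : Cond} {C₀ : Oracle} (hC₀ : Comp c C₀) {j : ℕ} (hj : c.J ≤ j)
    {S : Set ℕ} {ω : ℕ → List Bool} (h1 : AbsOK (put C₀ j S ω) j)
    (h2 : fam j < c.m → Prot c.m (put C₀ j S ω) j) : Comp c (put C₀ j S ω) := by
  refine ⟨fun q hq => ?_, fun j' hj' => ?_⟩
  · have hle : sc c.J ≤ sc j := sc_strictMono.monotone hj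
    rw [O7_ne (by omega)]
    exact hC₀.1 q hq
  · by_cases h : j' = j
    · subst h; exact ⟨h1, h2⟩
    · obtain ⟨ha, hb⟩ := hC₀.2 j' hj'
      have hc : ∀ q : List Bool, q.length = sc j' → put C₀ j S ω q = C₀ q := by
        intro q hq
        apply O7_ne
        intro h'
        exact h (sc_strictMono.injective (hq.symm.trans h'))
      exact ⟨(absOK_congr hc).2 ha, fun hf => (prot_congr hc _).2 (hb hf)⟩

/-- polynomials are small compared with powers of two -/
theorem O7_poly (r : Polynomial ℕ) (M T : ℕ) :
    ∃ N, ∀ n, N ≤ n → T ≤ n ∧ M * r.eval n < 2 ^ (n - T) := by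
  obtain ⟨N, hN⟩ := a6b_poly (Polynomial.C (M * 2 ^ T) * r)
  refine ⟨N + T + 2, fun n hn => ⟨by omega, ?_⟩⟩
  have h := hN n (by omega)
  rw [Polynomial.eval_mul, Polynomial.eval_C] at h
  have h1 : 2 ^ (n - 2) ≤ 2 ^ (n - T) * 2 ^ T := by
    rw [← pow_add]
    exact Nat.pow_le_pow_right (by norm_num) (by omega)
  have h2 : M * 2 ^ T * r.eval n < 2 ^ (n - T) * 2 ^ T := by omega
  have h3 : M * r.eval n * 2 ^ T < 2 ^ (n - T) * 2 ^ T := by
    calc M * r.eval n * 2 ^ T = M * 2 ^ T * r.eval n := by ring
      _ < _ := h2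
  exact Nat.lt_of_mul_lt_mul_right h3

/-- the configurations -/
def O7_conf : Option (Bool × ℕ × Bool) → Set ℕ
  | none => {2}
  | some (b, s, false) => DT b s
  | some (b, s, true) => DT b s ∪ {2 + 2 * (s - 1)}

theorem O7_absOK {C : Oracle} {j : ℕ} {a : Option (Bool × ℕ × Bool)}
    (ha1 : ∀ b s, a = some (b, s, true) → 1 ≤ s) (hH : ∀ t, HasT C j t ↔ t ∈ O7_conf a) :
    AbsOK C j := by
  match a, ha1, hH with
  | none, _, hH => exact absOK_of_types (s := 0) (b := true) hH (Or.inr (Or.inr rfl))
  | some (b, s, false), _, hH => exact absOK_of_types (s := s) (b := b) hH (Or.inl rfl)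
  | some (b, s, true), ha1, hH =>
    exact absOK_of_types (s := s) (b := b) hH (Or.inr (Or.inl ⟨ha1 b s rfl, rfl⟩))

theorem O7_conf_lt {a : Option (Bool × ℕ × Bool)} {s₀ : ℕ}
    (ha : ∀ b s u, a = some (b, s, u) → s ≤ s₀) {t : ℕ} (ht : t ∈ O7_conf a) :
    t < 2 * s₀ + 3 := by
  match a, ha, ht with
  | none, _, ht =>
    simp only [O7_conf, Set.mem_singleton_iff] at ht
    omega
  | some (b, s, false), ha, ht =>
    have := ha b s false rfl
    simp only [O7_conf, DT, Set.mem_ofPred_eq] at ht
    rcases ht with ht | ⟨k, hk, ht⟩ | ht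
    · cases b <;> simp at ht <;> omega
    · omega
    · omega
  | some (b, s, true), ha, ht =>
    have := ha b s true rfl
    simp only [O7_conf, DT, Set.mem_union, Set.mem_singleton_iff, Set.mem_ofPred_eq] at ht
    rcases ht with (ht | ⟨k, hk, ht⟩ | ht) | ht
    · cases b <;> simp at ht <;> omega
    · omega
    · omega
    · omega

/-- the word of type `t` for the value `v` -/
def O7_w (r T t : ℕ) (v : List.Vector Bool r) : List Bool :=
  v.1 ++ List.replicate (T - 1 - t) false

theorem O7_w_length {r T t : ℕ} (ht : t < T) (v : List.Vector Bool r) :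
    (O7_w r T t v).length + t + 1 = r + T := by
  unfold O7_w
  rw [List.length_append, List.length_replicate, v.2]
  omega

theorem O7_w_inj {r T t : ℕ} {v v' : List.Vector Bool r} (h : O7_w r T t v = O7_w r T t v') :
    v = v' := by
  unfold O7_w at h
  exact Subtype.ext (List.append_cancel_right h)

/-- the words of a point of the product -/
def O7_om {r T : ℕ} (ω : Fin T → List.Vector Bool r) : ℕ → List Bool := fun t =>
  if h : t < T then O7_w r T t (ω ⟨t, h⟩) else []

/-- a decoding of the words of type `t` -/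
theorem O7_decode {r T : ℕ} (t : ℕ) (l : List (List Bool)) :
    ∃ l' : List (List.Vector Bool r), l'.length ≤ l.length ∧
      ∀ v, wd t (O7_w r T t v) ∈ l → v ∈ l' := by
  induction l with
  | nil => exact ⟨[], le_rfl, by simp⟩
  | cons q l ih =>
    obtain ⟨l', h1, h2⟩ := ih
    by_cases h : ∃ v : List.Vector Bool r, wd t (O7_w r T t v) = q
    · obtain ⟨v, hv⟩ := h
      refine ⟨v :: l', by simp only [List.length_cons]; omega, ?_⟩
      intro v' hv'
      rcases List.mem_cons.1 hv' with h3 | h3
      · have h4 := (wd_inj (h3.trans hv.symm)).2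
        rw [O7_w_inj h4]
        exact List.mem_cons_self
      · exact List.mem_cons_of_mem _ (h2 v' h3)
    · refine ⟨l', by simp only [List.length_cons]; omega, ?_⟩
      intro v' hv'
      rcases List.mem_cons.1 hv' with h3 | h3
      · exact absurd ⟨v', h3⟩ h
      · exact h2 v' h3

theorem O7_side_ne {act : Act} {e : Ver × Ver} {x : List Bool} {C : Oracle}
    (hg : PGood act e x C) {v v' : Bool} (h : Acc act (side v e) x C)
    (h' : Acc act (side v' e) x C) : v = v' := by
  unfold PGood at hg
  cases v <;> cases v'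
  · rfl
  · exact absurd h (hg.1 h')
  · exact absurd h' (hg.1 h)
  · rfl

theorem clash {act : Act} (hs : Short act) {c c' : Cond}
    (hcc : ∀ C', Comp c' C' → Comp c C') (hJ : c.J ≤ c'.J) {C₀ : Oracle} (hC₀ : Comp c' C₀)
    {i : ℕ} (hi : c.m ≤ i) (J₀ : ℕ) (e : Ver × Ver)
    (hgood : ∀ C', Comp c C' → ∀ x, PGood act e x C') (f : FN)
    (hred : ∀ C', Comp c' C' → ∀ x, PRed act f i J₀ e x C') : False := by
  obtain ⟨qf, hqf⟩ := QB_word f
  obtain ⟨q1, hq1⟩ := QB_ver e.1
  obtain ⟨q2, hq2⟩ := QB_ver e.2
  obtain ⟨qo, hqo⟩ := out_bound f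
  set r : Polynomial ℕ := qf + (q1.comp qo + q2.comp qo) with hr
  set s₀ : ℕ := max c'.m 1 with hs₀
  set T : ℕ := 2 * s₀ + 3 with hT
  -- the index set
  let Idx : Finset (Option (Bool × ℕ × Bool)) :=
    Finset.insertNone ((Finset.univ : Finset Bool) ×ˢ (Finset.range (s₀ + 1)) ×ˢ
      (Finset.univ : Finset Bool))
  let A : Finset (Option (Bool × ℕ × Bool) × Fin T) := Idx ×ˢ Finset.univ
  obtain ⟨N, hN⟩ := O7_poly r A.card T
  obtain ⟨j, hj, hfam⟩ := exists_fam i (max N (max c'.J J₀))
  have hjN : N ≤ j := (le_max_left _ _).trans hj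
  have hjJ : c'.J ≤ j := (le_max_left _ _).trans ((le_max_right _ _).trans hj)
  have hjJ0 : J₀ ≤ j := (le_max_right _ _).trans ((le_max_right _ _).trans hj)
  have hscj := le_sc j
  obtain ⟨hTj, hk⟩ := hN (sc j) (by omega)
  set n : ℕ := sc j - T with hn
  have hnT : n + T = sc j := by omega
  set x₀ : List Bool := List.replicate (sc j) false with hx₀
  have hx₀l : x₀.length = sc j := by rw [hx₀, List.length_replicate]
  set k := r.eval (sc j) with hkdef
  -- length bounds
  have bf : ∀ C, (used act f C x₀).length ≤ qf.eval (sc j) := fun C =>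
    (used_length act f C x₀).trans (hqf x₀ _ (le_of_eq (by rw [hx₀l]))).1
  have bo : ∀ C, (f.run (Xo act C) x₀).length ≤ qo.eval (sc j) := fun C => by
    have := hqo (Xo act C) x₀
    rwa [hx₀l] at this
  have bv : ∀ (b : Bool) (C : Oracle) (w : List Bool),
      w.length ≤ (side b e).2.eval (f.run (Xo act C) x₀).length →
      (used act (side b e).1 C (f.run (Xo act C) x₀, w)).length ≤
        q1.eval (qo.eval (sc j)) + q2.eval (qo.eval (sc j)) := by
    intro b C w hw
    refine (used_length act _ C _).trans ?_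
    cases b
    · have h := (hq2 (f.run (Xo act C) x₀) _ (poly_mono q2 (bo C)) w hw).2.1
      exact h.trans (Nat.le_add_left _ _)
    · have h := (hq1 (f.run (Xo act C) x₀) _ (poly_mono q1 (bo C)) w hw).2.1
      exact h.trans (Nat.le_add_right _ _)
  have hkval : k = qf.eval (sc j) + (q1.eval (qo.eval (sc j)) + q2.eval (qo.eval (sc j))) := by
    rw [hkdef, hr, Polynomial.eval_add, Polynomial.eval_add, Polynomial.eval_comp,
      Polynomial.eval_comp]
  -- the accepting side and the witness
  have hw : ∀ C, ∃ (v : Bool) (w : List Bool), Comp c C →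
      w.length ≤ (side v e).2.eval (f.run (Xo act C) x₀).length ∧
      (side v e).1.run (Xo act C) (f.run (Xo act C) x₀, w) = true := by
    intro C
    by_cases hC : Comp c C
    · have h := hgood C hC (f.run (Xo act C) x₀)
      unfold PGood at h
      by_cases h1 : Acc act e.1 (f.run (Xo act C) x₀) C
      · obtain ⟨w, hw⟩ := h1
        exact ⟨true, w, fun _ => hw⟩
      · have h2 : Acc act e.2 (f.run (Xo act C) x₀) C := by
          by_contra h3
          exact h1 (h.2 h3)
        obtain ⟨w, hw⟩ := h2
        exact ⟨false, w, fun _ => hw⟩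
    · exact ⟨true, [], fun h => absurd h hC⟩
  choose val wit hw using hw
  have haccv : ∀ C, Comp c C → Acc act (side (val C) e) (f.run (Xo act C) x₀) C :=
    fun C hC => ⟨wit C, hw C hC⟩
  -- the used words
  let U : Oracle → List (List Bool) := fun C => used act f C x₀ ++
    used act (side (val C) e).1 C (f.run (Xo act C) x₀, wit C)
  have hU : ∀ C, Comp c C → (U C).length ≤ k := by
    intro C hC
    change (used act f C x₀ ++
      used act (side (val C) e).1 C (f.run (Xo act C) x₀, wit C)).length ≤ k
    rw [List.length_append, hkval]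
    exact Nat.add_le_add (bf _) (bv (val C) _ _ (hw C hC).1)
  -- compatibility of the configurations
  have hidx : ∀ a ∈ Idx, ∀ b s u, a = some (b, s, u) → s ≤ s₀ := by
    intro a ha b s u hau
    subst hau
    rw [Finset.some_mem_insertNone] at ha
    simp only [Finset.mem_product, Finset.mem_univ, Finset.mem_range, true_and, and_true] at ha
    omega
  have hom : ∀ (ω : Fin T → List.Vector Bool n) (t : ℕ), t < T →
      (O7_om ω t).length + t + 1 = sc j := by
    intro ω t ht
    unfold O7_om
    rw [dif_pos ht, O7_w_length ht, hnT]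
  have hcompc : ∀ a ∈ Idx, (∀ b s, a = some (b, s, true) → 1 ≤ s) →
      ∀ ω : Fin T → List.Vector Bool n, Comp c (put C₀ j (O7_conf a) (O7_om ω)) := by
    intro a ha ha1 ω
    have hlt : ∀ t ∈ O7_conf a, t < T := fun t ht => O7_conf_lt (hidx a ha) ht
    apply O7_comp (hcc C₀ hC₀) (hJ.trans hjJ)
    · have hH : ∀ t, HasT (put C₀ j (O7_conf a) (O7_om ω)) j t ↔ t ∈ O7_conf a :=
        put_hasT fun t ht => hom ω t (hlt t ht)
      exact O7_absOK ha1 hH
    · intro hf
      omega
  -- the good point
  obtain ⟨ω, hω⟩ := avoidAll T k A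
    (fun a t ω => (∀ b s, a = some (b, s, true) → 1 ≤ s) ∧ a ∈ Idx ∧ (t : ℕ) ∉ O7_conf a ∧
      wd t (O7_om ω t) ∈ U (put C₀ j (O7_conf a) (O7_om ω)))
    (by
      rintro ⟨a, t⟩ hp ω
      by_cases hc : (∀ b s, a = some (b, s, true) → 1 ≤ s) ∧ a ∈ Idx ∧ (t : ℕ) ∉ O7_conf a
      · obtain ⟨hc1, hc2, hc3⟩ := hc
        obtain ⟨l', hl', hl2⟩ := O7_decode (r := n) (T := T) (t : ℕ)
          (U (put C₀ j (O7_conf a) (O7_om ω)))
        refine ⟨l', hl'.trans (hU _ (hcompc a hc2 hc1 ω)), ?_⟩
        rintro v ⟨-, -, -, hv⟩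
        have h1 : put C₀ j (O7_conf a) (O7_om (Function.update ω t v)) =
            put C₀ j (O7_conf a) (O7_om ω) := by
          funext q
          unfold put
          split_ifs with hq
          · congr 1
            apply propext
            have h2 : ∀ t' ∈ O7_conf a, O7_om (Function.update ω t v) t' = O7_om ω t' := by
              intro t' ht'
              unfold O7_om
              split_ifs with h3
              · rw [Function.update_of_ne]
                intro h4
                apply hc3
                rw [← h4]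
                exact ht'
              · rfl
            constructor
            · rintro ⟨t', ht', h⟩
              exact ⟨t', ht', by rw [h, h2 t' ht']⟩
            · rintro ⟨t', ht', h⟩
              exact ⟨t', ht', by rw [h, h2 t' ht']⟩
          · rfl
        rw [h1] at hv
        apply hl2
        have h3 : O7_om (Function.update ω t v) (t : ℕ) = O7_w n T t v := by
          unfold O7_om
          rw [dif_pos t.2]
          simp
        rwa [h3] at hv
      · refine ⟨[], Nat.zero_le _, ?_⟩
        rintro v ⟨h1, h2, h3, -⟩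
        exact absurd ⟨h1, h2, h3⟩ hc)
    (by
      rw [card_vector, Fintype.card_bool]
      exact hk)
  have hgoodω : ∀ a ∈ Idx, (∀ b s, a = some (b, s, true) → 1 ≤ s) → ∀ t, t < T →
      t ∉ O7_conf a → wd t (O7_om ω t) ∉ U (put C₀ j (O7_conf a) (O7_om ω)) := by
    intro a ha ha1 t ht htc hU'
    exact hω (a, ⟨t, ht⟩) (Finset.mem_product.2 ⟨ha, Finset.mem_univ _⟩) ⟨ha1, ha, htc, hU'⟩
  -- comparison of two configurations
  have hcmp : ∀ a ∈ Idx, ∀ a' ∈ Idx, (∀ b s, a = some (b, s, true) → 1 ≤ s) →
      (∀ b s, a' = some (b, s, true) → 1 ≤ s) → O7_conf a ⊆ O7_conf a' →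
      val (put C₀ j (O7_conf a) (O7_om ω)) = val (put C₀ j (O7_conf a') (O7_om ω)) := by
    intro a ha a' ha' ha1 ha1' hsub
    set C := put C₀ j (O7_conf a) (O7_om ω) with hC
    set C' := put C₀ j (O7_conf a') (O7_om ω) with hC'
    have hcC : Comp c C := hcompc a ha ha1 ω
    have hcC' : Comp c C' := hcompc a' ha' ha1' ω
    have hag : ∀ q ∈ U C, C' q = C q := by
      intro q hq
      rw [hC, hC']
      unfold put
      split_ifs with hl
      · congr 1
        apply propext
        constructor
        · rintro ⟨t, ht, rfl⟩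
          by_cases h1 : t ∈ O7_conf a
          · exact ⟨t, h1, rfl⟩
          · exact absurd hq (hgoodω a ha ha1 t (O7_conf_lt (hidx a' ha') ht) h1)
        · rintro ⟨t, ht, rfl⟩
          exact ⟨t, hsub ht, rfl⟩
      · rfl
    have h1 : f.run (Xo act C') x₀ = f.run (Xo act C) x₀ :=
      run_used act f fun q hq => hag q (List.mem_append_left _ hq)
    have h2 : (side (val C) e).1.run (Xo act C') (f.run (Xo act C) x₀, wit C) =
        (side (val C) e).1.run (Xo act C) (f.run (Xo act C) x₀, wit C) :=
      run_used act (side (val C) e).1 fun q hq => hag q (List.mem_append_right _ hq)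
    have h3 : Acc act (side (val C) e) (f.run (Xo act C') x₀) C' := by
      refine ⟨wit C, ?_, ?_⟩
      · rw [h1]; exact (hw C hcC).1
      · rw [h1, h2]; exact (hw C hcC).2
    exact O7_side_ne (hgood C' hcC' (f.run (Xo act C') x₀)) h3 (haccv C' hcC')
  have hmem : ∀ b s u, s ≤ s₀ → some (b, s, u) ∈ Idx := by
    intro b s u hs
    rw [Finset.some_mem_insertNone]
    simp only [Finset.mem_product, Finset.mem_univ, Finset.mem_range, true_and, and_true]
    omega
  have hnone : none ∈ Idx := Finset.none_mem_insertNone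
  -- the chain
  have hchain : ∀ b s, s ≤ s₀ → val (put C₀ j (O7_conf (some (b, s, false))) (O7_om ω)) =
      val (put C₀ j (O7_conf none) (O7_om ω)) := by
    intro b s
    induction s with
    | zero =>
      intro _
      symm
      apply hcmp _ hnone _ (hmem b 0 false (Nat.zero_le _)) (by simp) (by simp)
      intro t ht
      simp only [O7_conf, Set.mem_singleton_iff] at ht
      subst ht
      exact Or.inr (Or.inr rfl)
    | succ s ih =>
      intro hs
      rw [← ih (by omega)]
      have h1 := hcmp (some (b, s + 1, false)) (hmem _ _ _ hs) (some (b, s + 1, true))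
        (hmem _ _ _ hs) (by simp) (by
          intro b' s' h
          simp only [Option.some.injEq, Prod.mk.injEq] at h
          omega) (by
          intro t ht
          exact Or.inl ht)
      have h2 := hcmp (some (b, s, false)) (hmem _ _ _ (by omega)) (some (b, s + 1, true))
        (hmem _ _ _ hs) (by simp) (by
          intro b' s' h
          simp only [Option.some.injEq, Prod.mk.injEq] at h
          omega) (by
          intro t ht
          simp only [O7_conf, DT, Set.mem_union, Set.mem_singleton_iff, Set.mem_ofPred_eq] at ht ⊢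
          rcases ht with ht | ⟨k, hk, ht⟩ | ht
          · exact Or.inl (Or.inl ht)
          · exact Or.inl (Or.inr (Or.inl ⟨k, by omega, ht⟩))
          · right
            rw [ht, Nat.add_sub_cancel])
      rw [h1, h2]
  -- the top of the chain
  have htop : ∀ b, val (put C₀ j (O7_conf (some (b, s₀, false))) (O7_om ω)) = b := by
    intro b
    set C := put C₀ j (O7_conf (some (b, s₀, false))) (O7_om ω) with hC
    have hH : ∀ t, HasT C j t ↔ t ∈ O7_conf (some (b, s₀, false)) :=
      put_hasT fun t ht => hom ω t (O7_conf_lt (hidx _ (hmem b s₀ false le_rfl)) ht)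
    have hv : (if b then 1 else 0 : ℕ) = 0 ∨ (if b then 1 else 0 : ℕ) = 1 := by
      cases b <;> simp
    have hcC : Comp c C := hcompc _ (hmem b s₀ false le_rfl) (by simp) ω
    have hcC' : Comp c' C := by
      apply O7_comp hC₀ hjJ
      · exact absOK_of_types (s := s₀) (b := b) hH (Or.inl rfl)
      · intro _ k hk
        rw [← hC, hH]
        simp only [O7_conf, DT, Set.mem_ofPred_eq]
        rintro (h | ⟨k', _, h⟩ | h)
        · omega
        · omega
        · have : c'.m ≤ s₀ := le_max_left _ _
          omega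
    have htl : tl i J₀ C x₀ = b := by
      unfold tl
      cases b
      · rw [decide_eq_false_iff_not]
        rintro ⟨j', -, -, hj', hj''⟩
        have : j' = j := sc_strictMono.injective (by omega)
        subst this
        rw [hH] at hj''
        simp only [O7_conf, DT, Set.mem_ofPred_eq] at hj''
        rcases hj'' with h | ⟨k', _, h⟩ | h
        · simp at h
        · omega
        · omega
      · rw [decide_eq_true_eq]
        refine ⟨j, hjJ0, hfam, hx₀l, ?_⟩
        rw [hH]
        exact Or.inl rfl
    have hr' := hred C hcC' x₀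
    have hacc : Acc act (side b e) (f.run (Xo act C) x₀) C := by
      cases b
      · exact hr'.2 htl
      · exact hr'.1 htl
    exact O7_side_ne (hgood C hcC (f.run (Xo act C) x₀)) (haccv C hcC) hacc
  have h1 := hchain true s₀ le_rfl
  have h2 := hchain false s₀ le_rfl
  rw [htop] at h1 h2
  rw [← h2] at h1
  exact Bool.noConfusion h1

end Pool.Agent.PudOpt
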