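import Mathlib
import Pool.Agent.PudOpt.O1g
import Pool.Agent.PudOpt.O2
import Pool.Agent.PudOpt.O3
import Pool.Agent.PudOpt.O4
import Pool.Agent.PudOpt.O5
import Pool.Agent.PudOpt.O7
import Pool.Agent.Helper22.OracleBaire

set_option autoImplicit false

/-!
# O8: the theorem
-/

namespace Pool.Agent.PudOpt

open N68a2faeb N793a5b8e N487b59b3 Pool.Agent.Helper22 Pool.Agent.PudOr Pool.Agent.PudTal
open scoped Classical

/-- the functionals -/
noncomputable def O8Th : Unit ⊕ Unit ⊕ Unit ⊕ Unit ⊕ (ℕ × ℕ × Bool) → Act → List Bool →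
    Strat × (Oracle → Bool)
  | .inl _ => thTF
  | .inr (.inl _) => thUP
  | .inr (.inr (.inl _)) => thO
  | .inr (.inr (.inr (.inl _))) => PudTal.thK
  | .inr (.inr (.inr (.inr (i, J, b)))) => thT i J b

/-- the statements -/
def O8P (act : Act) : Ver ⊕ Ver ⊕ FN ⊕ (Ver × Ver) ⊕ (FN × ℕ × ℕ × (Ver × Ver)) →
    List Bool → Oracle → Prop
  | .inl e => Acc act e
  | .inr (.inl e) => Uniq act e
  | .inr (.inr (.inl g)) => PSnd act g
  | .inr (.inr (.inr (.inl e))) => PGood act e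
  | .inr (.inr (.inr (.inr (f, i, J, e)))) => PRed act f i J e

theorem O8_local {act : Act} (hs : Short act) : ∀ i x, ∃ n, ∀ C C', Agree n C C' →
    (O8P act i x C ↔ O8P act i x C') := by
  rintro (e | e | g | e | ⟨f, i, J, e⟩) x
  · obtain ⟨q, hq⟩ := acc_local hs e
    exact ⟨q.eval x.length, fun C C' h => hq x C C' h⟩
  · exact uniq_local hs e x
  · exact snd_local hs g x
  · exact good_local hs e x
  · exact red_local hs f i J e x

theorem Gen.anti_le {ι : Type} {P : ι → List Bool → Oracle → Prop} {C : Oracle}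
    (g : Gen P C) {m n : ℕ} (h : m ≤ n) (C' : Oracle) (hC' : Comp (g.p n) C') :
    Comp (g.p m) C' := by
  induction n, h using Nat.le_induction with
  | base => exact hC'
  | succ n _ ih => exact ih (g.anti n C' hC')

theorem Gen.J_le {ι : Type} {P : ι → List Bool → Oracle → Prop} {C : Oracle}
    (g : Gen P C) {m n : ℕ} (h : m ≤ n) : (g.p m).J ≤ (g.p n).J := by
  induction n, h using Nat.le_induction with
  | base => exact le_rfl
  | succ n _ ih => exact ih.trans (g.J_mono n)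

theorem main : ∃ X : Oracle, (∃ T : TFNPo X, T.IsComplete) ∧
    (∃ K ∈ coNPo X, (∀ A ∈ coNPo X, ReducibleRel X A K) ∧ ∃ h, IsOptimalRel X K h) ∧
    (∃ U ∈ UPo X, ∀ A ∈ UPo X, ReducibleRel X A U) ∧
    ¬ ∃ L ∈ NPo X ∩ coNPo X, ∀ A ∈ NPo X ∩ coNPo X, ReducibleRel X A L := by
  obtain ⟨act, hs, hD⟩ := exists_act O8Th
  choose D hD using hD
  obtain ⟨C, hC, ⟨g⟩⟩ := exists_gen (O8P act) (O8_local hs)
  refine ⟨Xo act C, ?_, ⟨(PudTal.Kc act C)ᶜ, ?_, fun A hA => ?_, ?_⟩, ?_, ?_⟩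
  · refine tfnp_complete hs (hD (.inl ())) hC fun e he => ?_
    obtain ⟨k, hk⟩ := g.force (.inl e) he
    exact ⟨g.p k, g.comp k, hk⟩
  · show (PudTal.Kc act C)ᶜᶜ ∈ NPo _
    rw [compl_compl]
    exact PudTal.Kc_NP hs (hD (.inr (.inr (.inr (.inl ()))))) _
  · obtain ⟨f, hf⟩ := PudTal.Kc_hard act C Aᶜ hA
    refine ⟨f, fun x => ?_⟩
    have h1 := hf x
    have h2 : A x = !(Aᶜ x) := by
      show A x = !(!(A x))
      rw [Bool.not_not]
    rw [h2, h1]
    rfl
  · refine optimal hs (hD (.inr (.inr (.inl ())))) hC fun f hf => ?_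
    obtain ⟨k, hk⟩ := g.force (.inr (.inr (.inl f))) hf
    refine ⟨g.p k, g.p (max k ((g.p k).m + 1)), g.comp _, g.comp _, g.mJ k, ?_, hk⟩
    exact (le_max_right _ _).trans (g.m_le _)
  · refine up_complete hs (hD (.inr (.inl ()))) hC fun e he => ?_
    obtain ⟨k, hk⟩ := g.force (.inr (.inl e)) he
    exact ⟨g.p k, g.comp k, hk⟩
  · rintro ⟨L, ⟨⟨p₁, M₁, h₁⟩, ⟨p₀, M₀, h₀⟩⟩, hL⟩
    set e : Ver × Ver := ((M₁, p₁), (M₀, p₀)) with he
    have hacc1 : ∀ x, Acc act e.1 x C ↔ L x = true := fun x => (h₁ x).symm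
    have hacc0 : ∀ x, Acc act e.2 x C ↔ ¬ L x = true := fun x => by
      rw [← compl_true L x]
      exact (h₀ x).symm
    have hgood : ∀ x, O8P act (.inr (.inr (.inr (.inl e)))) x C := fun x => by
      show Acc act e.1 x C ↔ ¬ Acc act e.2 x C
      rw [hacc1, hacc0, not_not]
    obtain ⟨k, hk⟩ := g.force _ hgood
    set i := (g.p k).m with hi
    set J₀ := (g.p (i + 1)).J with hJ₀
    have hT : tl i J₀ C ∈ NPo (Xo act C) ∩ coNPo (Xo act C) := by
      refine tl_mem (D := fun b => D (.inr (.inr (.inr (.inr (i, J₀, b))))))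
        (fun b => hD (.inr (.inr (.inr (.inr (i, J₀, b)))))) fun j hj hf => ?_
      have h1 := (g.comp (i + 1)).2 j hj
      have h2 := g.m_le (i + 1)
      refine ⟨h1.1, fun l hl => h1.2 ?_ l ?_⟩ <;> omega
    obtain ⟨f, hf⟩ := hL _ hT
    have hred : ∀ x, O8P act (.inr (.inr (.inr (.inr (f, i, J₀, e))))) x C := fun x => by
      refine ⟨fun h => ?_, fun h => ?_⟩
      · rw [hacc1, ← hf x]; exact h
      · rw [hacc0, ← hf x, h]; simp
    obtain ⟨k', hk'⟩ := g.force _ hred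
    exact clash hs (c := g.p k) (c' := g.p (max k k'))
      (fun C' h => g.anti_le (le_max_left _ _) C' h) (g.J_le (le_max_left _ _))
      (g.comp (max k k')) (le_of_eq hi.symm) J₀ e hk f
      (fun C' h => hk' C' (g.anti_le (le_max_right _ _) C' h))

end Pool.Agent.PudOpt
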